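import Pool.Agent.Lib.MP_140312_al.Periodic

/-!
# If all branch lines are periodic, they form finitely many classes

This file is not used by the main theorem; it shows that the finiteness hypothesis of the main
theorem is automatic when the family branches only along periodic lines.
-/

open Filter

namespace Pool.Agent.Lib.MP_140312_al

variable {V : Type*} {G : Type*} [Group G] [MulAction G V] {X : SimpleGraph V}
  {𝓕 : Set (ℤ → ℤ → V)} {k : ℕ}

/-- Two members of the family branching along their column `0`. -/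
structure IsFork (𝓕 : Set (ℤ → ℤ → V)) (k : ℕ) (F : Fin 2 → ℤ → ℤ → V) : Prop where
  mem : ∀ a, F a ∈ 𝓕
  agree : ∀ a b i j, -(k : ℤ) ≤ i → i ≤ 0 → F a i j = F b i j
  ne : F 0 1 0 ≠ F 1 1 0

lemma IsFork.isBranchLine {F : Fin 2 → ℤ → ℤ → V} (hF : IsFork 𝓕 k F) :
    IsBranchLine 𝓕 k (F 0 0) :=
  ⟨F 0, hF.mem 0, F 1, hF.mem 1, fun _ => rfl, fun i j h1 h2 => hF.agree 0 1 i j h1 h2, hF.ne⟩

lemma IsBranchLine.exists_fork {L : ℤ → V} (hL : IsBranchLine 𝓕 k L) :
    ∃ F, IsFork 𝓕 k F ∧ ∀ j, F 0 0 j = L j := by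
  obtain ⟨f, hf, f', hf', h0, hag, hne⟩ := hL
  refine ⟨fun a => if a = 0 then f else f', ⟨?_, ?_, ?_⟩, ?_⟩
  · intro a
    by_cases ha : a = 0
    · simpa [ha] using hf
    · simpa [ha] using hf'
  · intro a b i j h1 h2
    by_cases ha : a = 0 <;> by_cases hb : b = 0 <;> simp [ha, hb, hag i j h1 h2]
  · simpa using hne
  · simpa using h0

lemma IsFork.smul (h𝓕 : IsFlatFamily G X 𝓕) {F : Fin 2 → ℤ → ℤ → V} (hF : IsFork 𝓕 k F)
    (g : G) : IsFork 𝓕 k (fun a i j => g • F a i j) where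
  mem := fun a => h𝓕.smul_mem g _ (hF.mem a)
  agree := fun a b i j h1 h2 => by rw [hF.agree a b i j h1 h2]
  ne := fun h => hF.ne (MulAction.injective g h)

lemma IsFork.shift (h : IsMedianGraph X) (h𝓕 : IsFlatFamily G X 𝓕) {F : Fin 2 → ℤ → ℤ → V}
    (hF : IsFork 𝓕 k F) (b : ℤ) : IsFork 𝓕 k (fun a i j => F a i (j + b)) where
  mem := fun a => by
    have := h𝓕.translate_mem 0 b _ (hF.mem a)
    simpa using this
  agree := fun a b i j h1 h2 => by rw [hF.agree a b i _ h1 h2]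
  ne := fun heq => by
    apply hF.ne
    have := flat_column_all h (h𝓕.isFlat _ (hF.mem 0)) (h𝓕.isFlat _ (hF.mem 1)) (i := 0)
      (y := 0 + b) (fun j => hF.agree 0 1 0 j (by omega) le_rfl) (by simpa using heq) 0
    simpa using this

lemma IsFork.of_limit (h𝓕 : IsFlatFamily G X 𝓕) {u : ℕ → Fin 2 → ℤ → ℤ → V}
    {F : Fin 2 → ℤ → ℤ → V} (hu : ∀ n, IsFork 𝓕 k (u n))
    (hlim : ∀ a i j, ∀ᶠ n in (𝒰 : Filter ℕ), u n a i j = F a i j) : IsFork 𝓕 k F where
  mem := fun a => h𝓕.of_limit (fun n => (hu n).mem a) (fun i j => hlim a i j)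
  agree := fun a b i j h1 h2 => by
    obtain ⟨n, h3, h4⟩ := ((hlim a i j).and (hlim b i j)).exists
    rw [← h3, ← h4]
    exact (hu n).agree a b i j h1 h2
  ne := by
    obtain ⟨n, h3, h4⟩ := ((hlim 0 1 0).and (hlim 1 1 0)).exists
    rw [← h3, ← h4]
    exact (hu n).ne

/-- Reflecting the vertical direction. -/
def reflectFamily (𝓕 : Set (ℤ → ℤ → V)) : Set (ℤ → ℤ → V) := {f | (fun i j => f i (-j)) ∈ 𝓕}

lemma reflect_isFlatFamily (h𝓕 : IsFlatFamily G X 𝓕) : IsFlatFamily G X (reflectFamily 𝓕) where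
  isFlat := fun f hf i j i' j' => by
    have := h𝓕.isFlat _ hf i (-j) i' (-j')
    simp only [neg_neg] at this
    rw [this]
    congr 1
    omega
  smul_mem := fun g f hf => h𝓕.smul_mem g _ hf
  translate_mem := fun a b f hf => by
    have := h𝓕.translate_mem a (-b) _ hf
    show (fun i j => f (i + a) (-j + b)) ∈ 𝓕
    have h2 : (fun i j => f (i + a) (-j + b)) = fun i j => f (i + a) (-(j + -b)) := by
      funext i j
      congr 1
      ring
    rw [h2]
    exact this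
  limit_mem := fun f hf => h𝓕.limit_mem _ fun n => by
    obtain ⟨f', hf', h1⟩ := hf n
    refine ⟨_, hf', fun i j hi hj => ?_⟩
    exact h1 i (-j) hi (by omega)

lemma IsFork.reflect {F : Fin 2 → ℤ → ℤ → V} (hF : IsFork 𝓕 k F) :
    IsFork (reflectFamily 𝓕) k (fun a i j => F a i (-j)) where
  mem := fun a => by
    show (fun i j => F a i (- -j)) ∈ 𝓕
    simp only [neg_neg]
    exact hF.mem a
  agree := fun a b i j h1 h2 => hF.agree a b i _ h1 h2
  ne := by simpa using hF.ne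

lemma IsBranchLine.of_reflect {L : ℤ → V} (hL : IsBranchLine (reflectFamily 𝓕) k L) :
    IsBranchLine 𝓕 k (fun j => L (-j)) := by
  obtain ⟨f, hf, f', hf', h0, hag, hne⟩ := hL
  exact ⟨_, hf, _, hf', fun j => h0 _, fun i j h1 h2 => hag i _ h1 h2, by simpa using hne⟩

lemma no_heteroclinic (h : IsMedianGraph X) (hG : GeometricAction G X)
    (h𝓕 : IsFlatFamily G X 𝓕)
    (hper : ∀ L : ℤ → V, IsBranchLine 𝓕 k L → IsPeriodicLine G L)
    {u : ℕ → Fin 2 → ℤ → ℤ → V} (hu : ∀ n, IsFork 𝓕 k (u n)) {q : ℤ → V} {g : G} {p : ℕ}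
    (hp : 0 < p) (hg : ∀ j, g • q j = q (j + p))
    (hlim : ∀ j, ∀ᶠ n in (𝒰 : Filter ℕ), u n 0 0 j = q j)
    (hne : ∀ᶠ n in (𝒰 : Filter ℕ), ∃ j : ℕ, u n 0 0 (j + 1) ≠ q (j + 1)) : False := by
  classical
  have hc := h.connected
  obtain ⟨M, hM⟩ := exists_stab_bound hG
  -- the first place (on the positive side) where `u n` differs from `q`
  let J : ℕ → ℕ := fun n =>
    if hn : ∃ j : ℕ, u n 0 0 (j + 1) ≠ q (j + 1) then Nat.find hn else 0
  have hJ1 : ∀ᶠ n in (𝒰 : Filter ℕ), u n 0 0 (J n + 1) ≠ q (J n + 1) := by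
    filter_upwards [hne] with n hn
    have : J n = Nat.find hn := dif_pos hn
    rw [this]
    exact Nat.find_spec hn
  have hJ2 : ∀ n, ∀ j : ℕ, j < J n → u n 0 0 (j + 1) = q (j + 1) := by
    intro n j hj
    by_cases hn : ∃ j : ℕ, u n 0 0 (j + 1) ≠ q (j + 1)
    · have : J n = Nat.find hn := dif_pos hn
      rw [this] at hj
      by_contra hcon
      exact Nat.find_min hn hj hcon
    · by_contra hcon
      exact hn ⟨j, hcon⟩
  have hJ3 : ∀ R : ℕ, ∀ᶠ n in (𝒰 : Filter ℕ), R ≤ J n := by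
    intro R
    have h1 : ∀ᶠ n in (𝒰 : Filter ℕ), ∀ j ∈ Finset.range R,
        u n 0 0 ((j : ℤ) + 1) = q ((j : ℤ) + 1) := by
      rw [Filter.eventually_all_finset]
      intro j _
      exact hlim _
    filter_upwards [h1, hJ1] with n h1 h2
    by_contra hlt
    exact h2 (h1 (J n) (Finset.mem_range.2 (by omega)))
  set r : ℕ → ℕ := fun n => J n / p with hr
  set s : ℕ → ℕ := fun n => J n % p with hs
  have hrs : ∀ n, (J n : ℤ) = r n * p + s n := by
    intro n
    have := Nat.div_add_mod (J n) p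
    simp only [hr, hs]
    have h2 : (J n : ℤ) = ((p * (J n / p) + J n % p : ℕ) : ℤ) := by rw [this]
    rw [h2]
    push_cast
    ring
  -- the shifted forks
  let v : ℕ → Fin 2 → ℤ → ℤ → V := fun n a i j => (g ^ r n)⁻¹ • u n a i (j + J n)
  have hv : ∀ n, IsFork 𝓕 k (v n) := fun n => ((hu n).shift h h𝓕 (J n)).smul h𝓕 (g ^ r n)⁻¹
  have hvq : ∀ᶠ n in (𝒰 : Filter ℕ), ∀ j : ℤ, -(J n : ℤ) ≤ j → j ≤ 0 →
      v n 0 0 j = q (j + s n) := by
    filter_upwards [hlim 0] with n h0 j hj1 hj2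
    have h1 : u n 0 0 (j + J n) = q (j + J n) := by
      by_cases hj : j + J n = 0
      · rw [hj, h0]
      · obtain ⟨m, hm⟩ : ∃ m : ℕ, j + J n = (m : ℤ) + 1 := ⟨(j + J n - 1).toNat, by omega⟩
        rw [hm]
        exact hJ2 n m (by omega)
    show (g ^ r n)⁻¹ • u n 0 0 (j + J n) = _
    rw [h1, pow_translate_inv hg, hrs n]
    congr 1
    ring
  have hv1 : ∀ᶠ n in (𝒰 : Filter ℕ), v n 0 0 1 ≠ q (1 + s n) := by
    filter_upwards [hJ1] with n h1 h2
    apply h1
    have h3 : (g ^ r n)⁻¹ • u n 0 0 (1 + J n) = q (1 + s n) := h2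
    rw [inv_smul_eq_iff, pow_translate hg] at h3
    rw [add_comm (J n : ℤ) 1, h3, hrs n]
    congr 1
    ring
  -- the limit
  have hslt : ∀ n, s n < p := fun n => Nat.mod_lt _ hp
  obtain ⟨s₀, hs₀⟩ : ∃ s₀ : ℕ, ∀ᶠ n in (𝒰 : Filter ℕ), s n = s₀ := by
    obtain ⟨w, hw⟩ := ultralimit (A := Unit) (fun n _ => s n)
      (fun _ => ⟨Set.Iio p, Set.finite_Iio p, Eventually.of_forall fun n => hslt n⟩)
    exact ⟨w (), hw ()⟩
  have hKf : ∀ a : Fin 2 × ℤ × ℤ,
      (⋃ x ∈ (fun s : ℕ => q s) '' Set.Iio p,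
        {y | X.dist x y ≤ a.2.1.natAbs + a.2.2.natAbs}).Finite :=
    fun a => ((Set.finite_Iio p).image _).biUnion fun x _ => ball_finite hG hc x _
  obtain ⟨Z, hZ⟩ := ultralimit (fun n (a : Fin 2 × ℤ × ℤ) => v n a.1 a.2.1 a.2.2)
    (fun a => ⟨_, hKf a, by
      filter_upwards [hvq] with n hn
      simp only [Set.mem_iUnion]
      refine ⟨q (s n), ⟨s n, hslt n, rfl⟩, ?_⟩
      show X.dist _ _ ≤ _
      have h1 : v n 0 0 0 = q (s n) := by
        rw [hn 0 (by omega) le_rfl]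
        simp
      rw [← h1, (hv n).agree 0 a.1 0 0 (by omega) le_rfl,
        h𝓕.isFlat _ ((hv n).mem a.1)]
      simp⟩)
  have hZt : IsFork 𝓕 k (fun a i j => Z (a, i, j)) :=
    IsFork.of_limit h𝓕 hv (fun a i j => hZ (a, i, j))
  set z : ℤ → V := fun j => Z (0, 0, j) with hz
  have hz0 : ∀ j : ℤ, j ≤ 0 → z j = q (j + s₀) := by
    intro j hj
    obtain ⟨n, h1, h2, h3, h4⟩ :=
      ((hZ (0, 0, j)).and (hs₀.and (hvq.and (hJ3 j.natAbs)))).exists
    simp only at h1
    rw [hz]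
    simp only
    rw [← h1, h3 j (by omega) hj, h2]
  have hz1 : z 1 ≠ q (1 + s₀) := by
    obtain ⟨n, h1, h2, h3⟩ := ((hZ (0, 0, 1)).and (hs₀.and hv1)).exists
    simp only at h1
    rw [hz]
    simp only
    rw [← h1, ← h2]
    exact h3
  obtain ⟨g', p', hp', hg'⟩ := (hper _ hZt.isBranchLine).exists_pos
  have hg'z : ∀ j, g' • z j = z (j + p') := hg'
  have hpow : ((g' ^ p)⁻¹) ^ M.factorial = ((g ^ p')⁻¹) ^ M.factorial := by
    apply pow_factorial_eq hG hM _ _ (z 0)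
    intro n _
    have h1 : ((g' ^ p)⁻¹) ^ n • z 0 = z (-((p * n : ℕ) * p' : ℤ)) := by
      rw [inv_pow, ← pow_mul, pow_translate_inv hg'z]
      congr 1
      push_cast
      ring
    have h2 : ((g ^ p')⁻¹) ^ n • z 0 = q (s₀ - ((p' * n : ℕ) * p : ℤ)) := by
      rw [hz0 0 le_rfl, inv_pow, ← pow_mul, pow_translate_inv hg]
      congr 1
      push_cast
      ring
    rw [h1, h2, hz0 _ (by push_cast; nlinarith [Nat.zero_le (p * n * p')])]
    congr 1
    push_cast
    ring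
  have hpow' : (g' ^ p) ^ M.factorial = (g ^ p') ^ M.factorial := by
    rw [inv_pow, inv_pow] at hpow
    exact inv_injective hpow
  apply hz1
  set T : ℕ := p * M.factorial * p' with hT
  have hTpos : 1 ≤ T := by
    have := Nat.factorial_pos M
    have : 0 < p * M.factorial * p' := by positivity
    omega
  have h1 : (g' ^ p) ^ M.factorial • z (1 - T) = z 1 := by
    rw [← pow_mul, pow_translate hg'z]
    congr 1
    rw [hT]
    push_cast
    ring
  have h2 : (g ^ p') ^ M.factorial • q (1 - T + s₀) = q (1 + s₀) := by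
    rw [← pow_mul, pow_translate hg]
    congr 1
    rw [hT]
    push_cast
    ring
  rw [← h1, hz0 _ (by omega), hpow', h2]

lemma exists_equiv (h : IsMedianGraph X) (hG : GeometricAction G X)
    (h𝓕 : IsFlatFamily G X 𝓕)
    (hper : ∀ L : ℤ → V, IsBranchLine 𝓕 k L → IsPeriodicLine G L)
    (L : ℕ → ℤ → V) (hL : ∀ n, IsBranchLine 𝓕 k (L n)) :
    ∃ m l, m ≠ l ∧ LineEquiv G (L m) (L l) := by
  classical
  have hc := h.connected
  by_contra hcon
  push Not at hcon
  choose u hu huL using fun n => (hL n).exists_fork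
  obtain ⟨D, hD, hcov⟩ := hG.cocompact
  choose g hg using fun n => hcov (u n 0 0 0)
  let v : ℕ → Fin 2 → ℤ → ℤ → V := fun n a i j => g n • u n a i j
  have hv : ∀ n, IsFork 𝓕 k (v n) := fun n => (hu n).smul h𝓕 (g n)
  have hKf : ∀ a : Fin 2 × ℤ × ℤ,
      (⋃ x ∈ D, {y | X.dist x y ≤ a.2.1.natAbs + a.2.2.natAbs}).Finite :=
    fun a => hD.biUnion fun x _ => ball_finite hG hc x _
  obtain ⟨Z, hZ⟩ := ultralimit (fun n (a : Fin 2 × ℤ × ℤ) => v n a.1 a.2.1 a.2.2)
    (fun a => ⟨_, hKf a, Eventually.of_forall fun n => by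
      simp only [Set.mem_iUnion]
      refine ⟨v n 0 0 0, hg n, ?_⟩
      show X.dist _ _ ≤ _
      rw [(hv n).agree 0 a.1 0 0 (by omega) le_rfl, h𝓕.isFlat _ ((hv n).mem a.1)]
      simp⟩)
  have hZt : IsFork 𝓕 k (fun a i j => Z (a, i, j)) :=
    IsFork.of_limit h𝓕 hv (fun a i j => hZ (a, i, j))
  set q : ℤ → V := fun j => Z (0, 0, j) with hq
  obtain ⟨g₀, p, hp, hg₀⟩ := (hper _ hZt.isBranchLine).exists_pos
  have hg₀q : ∀ j, g₀ • q j = q (j + p) := hg₀
  have hlim : ∀ j, ∀ᶠ n in (𝒰 : Filter ℕ), v n 0 0 j = q j := fun j => hZ (0, 0, j)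
  have hne : ∀ᶠ n in (𝒰 : Filter ℕ), ∃ j, v n 0 0 j ≠ q j := by
    by_contra hcon2
    rw [← Ultrafilter.eventually_not] at hcon2
    have h1 : ∀ᶠ n in (𝒰 : Filter ℕ), ∀ j, v n 0 0 j = q j := by
      filter_upwards [hcon2] with n hn j
      by_contra h2
      exact hn ⟨j, h2⟩
    have h2 := infinite_of_eventually h1
    obtain ⟨m, hm⟩ := h2.nonempty
    obtain ⟨l, hl, hml⟩ := h2.exists_notMem_finset {m}
    have hne : l ≠ m := by simpa using hml
    apply hcon l m hne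
    refine ⟨(g m)⁻¹ * g l, 0, fun j => ?_⟩
    have h3 : g l • L l j = g m • L m j := by
      rw [← huL l, ← huL m]
      exact (hl j).trans (hm j).symm
    rw [mul_smul, h3, inv_smul_smul, add_zero]
  have hsplit : ∀ᶠ n in (𝒰 : Filter ℕ), (∃ j : ℕ, v n 0 0 (j + 1) ≠ q (j + 1)) ∨
      ∃ j : ℕ, v n 0 0 (-(j + 1)) ≠ q (-(j + 1)) := by
    filter_upwards [hne, hlim 0] with n hn h0
    obtain ⟨j, hj⟩ := hn
    rcases lt_trichotomy j 0 with h1 | h1 | h1
    · right
      refine ⟨(-j - 1).toNat, ?_⟩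
      rw [show -(((-j - 1).toNat : ℤ) + 1) = j by omega]
      exact hj
    · exact absurd (h1 ▸ h0) hj
    · left
      refine ⟨(j - 1).toNat, ?_⟩
      rw [show ((j - 1).toNat : ℤ) + 1 = j by omega]
      exact hj
  rw [Ultrafilter.eventually_or] at hsplit
  rcases hsplit with h1 | h1
  · exact no_heteroclinic h hG h𝓕 hper hv hp hg₀q hlim h1
  · refine no_heteroclinic h hG (reflect_isFlatFamily h𝓕) (fun L hL => ?_)
      (u := fun n a i j => v n a i (-j))
      (fun n => (hv n).reflect) (q := fun j => q (-j)) (g := g₀⁻¹) hp (fun j => ?_)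
      (fun j => hlim (-j)) h1
    · obtain ⟨g', p', hp', hg'⟩ := hper _ hL.of_reflect
      refine ⟨g', -p', by omega, fun j => ?_⟩
      have := hg' (-j)
      simp only [neg_neg] at this
      rw [this]
      congr 1
      ring
    · rw [inv_smul_eq_iff, hg₀q]
      congr 1
      ring

/-- If every branch line is periodic, then the branch lines form finitely many classes. -/
theorem finite_classes_of_periodic (h : IsMedianGraph X) (hG : GeometricAction G X)
    (h𝓕 : IsFlatFamily G X 𝓕)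
    (hper : ∀ L : ℤ → V, IsBranchLine 𝓕 k L → IsPeriodicLine G L) :
    ∃ S : Set (ℤ → V), S.Finite ∧ ∀ L : ℤ → V, IsBranchLine 𝓕 k L →
      ∃ L' ∈ S, LineEquiv G L L' := by
  classical
  let B : Set (ℤ → V) := {L | IsBranchLine 𝓕 k L}
  let r : Setoid B :=
    { r := fun L L' => LineEquiv G L.1 L'.1
      iseqv := ⟨fun _ => LineEquiv.refl _, fun h => h.symm, fun h h' => h.trans h'⟩ }
  have hfin : Finite (Quotient r) := by
    by_contra hinf
    rw [not_finite_iff_infinite] at hinf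
    let e := Infinite.natEmbedding (Quotient r)
    obtain ⟨m, l, hml, heq⟩ := exists_equiv h hG h𝓕 hper (fun n => (e n).out.1)
      (fun n => (e n).out.2)
    apply hml
    apply e.injective
    rw [← Quotient.out_eq (e m), ← Quotient.out_eq (e l)]
    exact Quotient.sound heq
  refine ⟨Set.range fun c : Quotient r => c.out.1, Set.finite_range _, fun L hL => ?_⟩
  refine ⟨_, ⟨Quotient.mk r ⟨L, hL⟩, rfl⟩, ?_⟩
  exact (Quotient.exact (Quotient.out_eq (Quotient.mk r ⟨L, hL⟩)) :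
    LineEquiv G _ _).symm

/-- A periodic line accumulates on a periodic line, namely itself. -/
lemma IsPeriodicLine.accumulates {L : ℤ → V} (hL : IsPeriodicLine G L) :
    AccumulatesPeriodic G L := ⟨L, hL, fun _ => ⟨1, 0, fun j _ => by simp⟩⟩

end Pool.Agent.Lib.MP_140312_al
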