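import Pool.Agent.Lib.MP_140312_al.Defs

/-!
# Basic facts: median graphs, actions, pigeonhole, ultralimits
-/

open Filter

namespace Pool.Agent.Lib.MP_140312_al

variable {V : Type*} {G : Type*} [Group G] [MulAction G V] {X : SimpleGraph V}

/-! ### Halfspaces (definitions) -/

/-- The halfspace of the edge `x y`: the vertices that are closer to `x` than to `y`. -/
def halfspace (X : SimpleGraph V) (x y : V) : Set V := {v | X.dist v x < X.dist v y}

/-- Two halfspaces (hyperplanes) cross if all four intersections of the two sets and their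
complements are nonempty. -/
def Crossing (A B : Set V) : Prop :=
  (A ∩ B).Nonempty ∧ (A ∩ Bᶜ).Nonempty ∧ (Aᶜ ∩ B).Nonempty ∧ (Aᶜ ∩ Bᶜ).Nonempty

/-- The cube complex has dimension at most `d`: there are no `d + 1` pairwise crossing
hyperplanes. -/
def DimLE (X : SimpleGraph V) (d : ℕ) : Prop :=
  ∀ x y : Fin (d + 1) → V, (∀ k, X.Adj (x k) (y k)) →
    ∃ k l, k ≠ l ∧ ¬ Crossing (halfspace X (x k) (y k)) (halfspace X (x l) (y l))

/-! ### Distances under the action -/

lemma dist_smul_le (hG : GeometricAction G X) (hc : X.Connected) (g : G) (x y : V) :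
    X.dist (g • x) (g • y) ≤ X.dist x y := by
  obtain ⟨p, hp⟩ := hc.exists_walk_length_eq_dist x y
  let φ : X →g X := ⟨fun v => g • v, fun {a b} h => (hG.adj_iff g a b).2 h⟩
  have := SimpleGraph.dist_le (p.map φ)
  rw [SimpleGraph.Walk.length_map, hp] at this
  exact this

lemma dist_smul (hG : GeometricAction G X) (hc : X.Connected) (g : G) (x y : V) :
    X.dist (g • x) (g • y) = X.dist x y := by
  refine le_antisymm (dist_smul_le hG hc g x y) ?_
  have := dist_smul_le hG hc g⁻¹ (g • x) (g • y)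
  simpa using this

lemma ball_finite (hG : GeometricAction G X) (hc : X.Connected) (x : V) (n : ℕ) :
    {y | X.dist x y ≤ n}.Finite := by
  induction n with
  | zero =>
    refine (Set.finite_singleton x).subset ?_
    intro y hy
    have : X.dist x y = 0 := by simpa using hy
    rw [hc.dist_eq_zero_iff] at this
    simp [this]
  | succ n ih =>
    refine (ih.union (ih.biUnion fun z _ => hG.locallyFinite z)).subset ?_
    intro y hy
    by_cases h : X.dist x y ≤ n
    · exact Or.inl h
    · right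
      have h1 : X.dist x y = n + 1 := by
        have : X.dist x y ≤ n + 1 := hy
        omega
      obtain ⟨p, hp⟩ := hc.exists_walk_length_eq_dist x y
      rw [h1] at hp
      obtain ⟨z, q, hzy, hq⟩ : ∃ (z : V) (q : X.Walk x z), X.Adj z y ∧ q.length = n := by
        have hnil : ¬ p.Nil := by
          intro hn
          rw [← SimpleGraph.Walk.length_eq_zero_iff] at hn
          omega
        refine ⟨_, p.dropLast, p.adj_penultimate hnil, ?_⟩
        have := SimpleGraph.Walk.length_dropLast_add_one hnil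
        omega
      simp only [Set.mem_iUnion]
      refine ⟨z, ?_, hzy⟩
      have := SimpleGraph.dist_le q
      show X.dist x z ≤ n
      omega

/-! ### Stabilisers are uniformly bounded -/

lemma exists_stab_bound (hG : GeometricAction G X) :
    ∃ M : ℕ, ∀ x : V, {g : G | g • x = x}.ncard ≤ M := by
  obtain ⟨D, hD, hcov⟩ := hG.cocompact
  obtain ⟨M, hM⟩ : ∃ M : ℕ, ∀ x ∈ D, {g : G | g • x = x}.ncard ≤ M := by
    have := (hD.image (fun x => {g : G | g • x = x}.ncard)).bddAbove
    obtain ⟨M, hM⟩ := this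
    exact ⟨M, fun x hx => hM ⟨x, hx, rfl⟩⟩
  refine ⟨M, fun x => ?_⟩
  obtain ⟨h, hh⟩ := hcov x
  refine le_trans ?_ (hM _ hh)
  refine Set.ncard_le_ncard_of_injOn (fun g => h * g * h⁻¹) ?_ ?_ (hG.finite_stabilizer _)
  · intro g hg
    have : g • x = x := hg
    show (h * g * h⁻¹) • (h • x) = h • x
    rw [mul_smul, mul_smul, inv_smul_smul, this]
  · intro a _ b _ hab
    simpa using hab

/-- If two elements have the same powers on a point, then suitable powers coincide. -/
lemma pow_factorial_eq (hG : GeometricAction G X) {M : ℕ}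
    (hM : ∀ x : V, {g : G | g • x = x}.ncard ≤ M) (u v : G) (x : V)
    (h : ∀ n ≤ M, u ^ n • x = v ^ n • x) : u ^ M.factorial = v ^ M.factorial := by
  classical
  obtain ⟨a, b, hab, hne⟩ : ∃ a b : Fin (M + 1), a < b ∧
      (v ^ (a : ℕ))⁻¹ * u ^ (a : ℕ) = (v ^ (b : ℕ))⁻¹ * u ^ (b : ℕ) := by
    by_contra hcon
    push Not at hcon
    have hinj : Function.Injective (fun n : Fin (M + 1) => (v ^ (n : ℕ))⁻¹ * u ^ (n : ℕ)) := by
      intro a b hab
      rcases lt_trichotomy a b with h1 | h1 | h1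
      · exact absurd hab (hcon a b h1)
      · exact h1
      · exact absurd hab.symm (hcon b a h1)
    have hsub : Set.range (fun n : Fin (M + 1) => (v ^ (n : ℕ))⁻¹ * u ^ (n : ℕ)) ⊆
        {g : G | g • x = x} := by
      rintro _ ⟨n, rfl⟩
      show ((v ^ (n : ℕ))⁻¹ * u ^ (n : ℕ)) • x = x
      rw [mul_smul, h n (by omega), inv_smul_smul]
    have h1 := Set.ncard_le_ncard hsub (hG.finite_stabilizer x)
    have h2 : (Set.range (fun n : Fin (M + 1) => (v ^ (n : ℕ))⁻¹ * u ^ (n : ℕ))).ncard
        = M + 1 := by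
      rw [← Set.image_univ, Set.ncard_image_of_injective _ hinj, Set.ncard_univ]
      simp
    have h3 := hM x
    omega
  have hc : u ^ ((b : ℕ) - a) = v ^ ((b : ℕ) - a) := by
    have hb : (b : ℕ) = (b - a : ℕ) + a := by
      have : (a : ℕ) < b := hab
      omega
    have h4 : u ^ (b : ℕ) = v ^ ((b : ℕ) - a) * u ^ (a : ℕ) := by
      have : v ^ (b : ℕ) * ((v ^ (a : ℕ))⁻¹ * u ^ (a : ℕ)) = u ^ (b : ℕ) := by
        rw [hne]
        group
      rw [← this]
      conv_lhs => rw [hb, pow_add]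
      group
    conv_lhs at h4 => rw [hb, pow_add]
    exact mul_right_cancel h4
  have hdvd : (b : ℕ) - a ∣ M.factorial := by
    have h1 : (a : ℕ) < b := hab
    have h2 : (b : ℕ) < M + 1 := b.2
    exact Nat.dvd_factorial (by omega) (by omega)
  obtain ⟨k, hk⟩ := hdvd
  rw [hk, pow_mul, pow_mul, hc]

/-! ### Pigeonhole principles for configurations -/

lemma pigeonhole_uniform (hG : GeometricAction G X) (hc : X.Connected) {κ : Type*} [Finite κ]
    (a₀ : κ) (R : ℕ) : ∃ C : ℕ, ∀ c : ℕ → κ → V, (∀ k a, X.dist (c k a₀) (c k a) ≤ R) →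
      ∃ x x' : ℕ, x < x' ∧ x' ≤ C ∧ ∃ g : G, ∀ a, g • c x a = c x' a := by
  classical
  obtain ⟨D, hD, hcov⟩ := hG.cocompact
  set B : Set V := ⋃ x ∈ D, {y | X.dist x y ≤ R} with hB
  have hBf : B.Finite := hD.biUnion fun x _ => ball_finite hG hc x R
  have : Finite B := hBf
  have : Finite (κ → B) := inferInstance
  have := Fintype.ofFinite (κ → B)
  refine ⟨Fintype.card (κ → B), fun c hcR => ?_⟩
  choose g hg using fun k => hcov (c k a₀)
  have hmem : ∀ k a, g k • c k a ∈ B := by
    intro k a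
    simp only [hB, Set.mem_iUnion]
    refine ⟨g k • c k a₀, hg k, ?_⟩
    show X.dist _ _ ≤ R
    rw [dist_smul hG hc]
    exact hcR k a
  let φ : Fin (Fintype.card (κ → B) + 1) → (κ → B) := fun k a => ⟨g k • c k a, hmem k a⟩
  obtain ⟨x, y, hxy, hφ⟩ := Fintype.exists_ne_map_eq_of_card_lt φ (by simp)
  have key : ∀ x y : Fin (Fintype.card (κ → B) + 1), x < y → φ x = φ y →
      ∃ x x' : ℕ, x < x' ∧ x' ≤ Fintype.card (κ → B) ∧ ∃ g : G, ∀ a, g • c x a = c x' a := by
    intro x y hxy hφ
    refine ⟨x, y, hxy, by omega, (g y)⁻¹ * g x, fun a => ?_⟩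
    have := congrArg Subtype.val (congrFun hφ a)
    simp only [φ] at this
    rw [mul_smul, this, inv_smul_smul]
  rcases lt_or_gt_of_ne hxy with h | h
  · exact key x y h hφ
  · exact key y x h hφ.symm

lemma pigeonhole_infinite (hG : GeometricAction G X) (hc : X.Connected) {κ : Type*} [Finite κ]
    (a₀ : κ) (R : ℕ) (S : Set ℕ) (hS : S.Infinite) (c : ℕ → κ → V)
    (hcR : ∀ k a, X.dist (c k a₀) (c k a) ≤ R) :
    ∃ T ⊆ S, T.Infinite ∧ ∀ k ∈ T, ∀ l ∈ T, ∃ g : G, ∀ a, g • c k a = c l a := by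
  classical
  obtain ⟨D, hD, hcov⟩ := hG.cocompact
  set B : Set V := ⋃ x ∈ D, {y | X.dist x y ≤ R} with hB
  have hBf : B.Finite := hD.biUnion fun x _ => ball_finite hG hc x R
  have : Finite B := hBf
  have : Finite (κ → B) := inferInstance
  choose g hg using fun k => hcov (c k a₀)
  have hmem : ∀ k a, g k • c k a ∈ B := by
    intro k a
    simp only [hB, Set.mem_iUnion]
    refine ⟨g k • c k a₀, hg k, ?_⟩
    show X.dist _ _ ≤ R
    rw [dist_smul hG hc]
    exact hcR k a
  let φ : S → (κ → B) := fun k a => ⟨g k • c k a, hmem k a⟩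
  have : Infinite S := hS.to_subtype
  obtain ⟨y, hy⟩ := Finite.exists_infinite_fiber φ
  refine ⟨Subtype.val '' (φ ⁻¹' {y}), ?_, ?_, ?_⟩
  · rintro _ ⟨k, _, rfl⟩
    exact k.2
  · exact (Set.infinite_coe_iff.1 hy).image Subtype.val_injective.injOn
  · rintro _ ⟨k, hk, rfl⟩ _ ⟨l, hl, rfl⟩
    refine ⟨(g l)⁻¹ * g k, fun a => ?_⟩
    have h1 : φ k = φ l := by
      rw [show φ k = y from hk, show φ l = y from hl]
    have := congrArg Subtype.val (congrFun h1 a)
    simp only [φ] at this
    rw [mul_smul, this, inv_smul_smul]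

/-! ### Ultralimits -/

/-- A nonprincipal ultrafilter on `ℕ`. -/
noncomputable abbrev 𝒰 : Ultrafilter ℕ := hyperfilter ℕ

lemma ultralimit {A W : Type*} (u : ℕ → A → W)
    (hK : ∀ a, ∃ K : Set W, K.Finite ∧ ∀ᶠ n in (𝒰 : Filter ℕ), u n a ∈ K) :
    ∃ w : A → W, ∀ a, ∀ᶠ n in (𝒰 : Filter ℕ), u n a = w a := by
  have : ∀ a, ∃ w : W, ∀ᶠ n in (𝒰 : Filter ℕ), u n a = w := by
    intro a
    obtain ⟨K, hK, h⟩ := hK a
    have h' : ∀ᶠ n in (𝒰 : Filter ℕ), ∃ w ∈ K, u n a = w := by
      filter_upwards [h] with n hn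
      exact ⟨_, hn, rfl⟩
    rw [Ultrafilter.eventually_exists_mem_iff hK] at h'
    obtain ⟨w, _, hw⟩ := h'
    exact ⟨w, hw⟩
  choose w hw using this
  exact ⟨w, hw⟩

lemma eventually_ge (N : ℕ) : ∀ᶠ n in (𝒰 : Filter ℕ), N ≤ n :=
  Nat.hyperfilter_le_atTop (eventually_ge_atTop N)

lemma infinite_of_eventually {p : ℕ → Prop} (h : ∀ᶠ n in (𝒰 : Filter ℕ), p n) :
    {n | p n}.Infinite := fun hf => hf.notMem_hyperfilter h

/-! ### Median graphs -/

lemma no_triangle (h : IsMedianGraph X) {a b c : V} (hab : X.Adj a b) (hbc : X.Adj b c)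
    (hac : X.Adj a c) : False := by
  obtain ⟨m, ⟨h1, h2, h3⟩, _⟩ := h.median a b c
  have hc := h.connected
  rw [SimpleGraph.dist_eq_one_iff_adj.2 hab] at h1
  rw [SimpleGraph.dist_eq_one_iff_adj.2 hbc] at h2
  rw [SimpleGraph.dist_eq_one_iff_adj.2 hac] at h3
  have e1 : X.dist m b = X.dist b m := SimpleGraph.dist_comm
  omega

lemma dist_eq_two (h : IsMedianGraph X) {a b u : V} (hab : a ≠ b) (ha : X.Adj u a)
    (hb : X.Adj u b) : X.dist a b = 2 := by
  have hc := h.connected
  have h1 : X.dist a b ≤ X.dist a u + X.dist u b := hc.dist_triangle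
  rw [SimpleGraph.dist_eq_one_iff_adj.2 ha.symm, SimpleGraph.dist_eq_one_iff_adj.2 hb] at h1
  have h2 : 0 < X.dist a b := hc.pos_dist_of_ne hab
  have h3 : X.dist a b ≠ 1 := by
    intro h4
    rw [SimpleGraph.dist_eq_one_iff_adj] at h4
    exact no_triangle h ha h4 hb
  omega

/-- A median graph contains no `K_{2,3}`. -/
lemma no_K23 (h : IsMedianGraph X) {u v a b c : V} (huv : u ≠ v) (hua : X.Adj u a)
    (hub : X.Adj u b) (huc : X.Adj u c) (hva : X.Adj v a) (hvb : X.Adj v b) (hvc : X.Adj v c)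
    (hab : a ≠ b) (hac : a ≠ c) : b = c := by
  by_contra hbc
  obtain ⟨m, _, hm⟩ := h.median a b c
  have key : ∀ w : V, X.Adj w a → X.Adj w b → X.Adj w c → w = m := by
    intro w wa wb wc
    apply hm
    have e1 := SimpleGraph.dist_eq_one_iff_adj.2 wa
    have e2 := SimpleGraph.dist_eq_one_iff_adj.2 wb
    have e3 := SimpleGraph.dist_eq_one_iff_adj.2 wc
    have e1' := SimpleGraph.dist_eq_one_iff_adj.2 wa.symm
    have e2' := SimpleGraph.dist_eq_one_iff_adj.2 wb.symm
    rw [dist_eq_two h hab wa wb, dist_eq_two h hac wa wc, dist_eq_two h hbc wb wc]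
    omega
  exact huv ((key u hua hub huc).trans (key v hva hvb hvc).symm)

lemma dist_adj_ne (h : IsMedianGraph X) {x y : V} (hxy : X.Adj x y) (v : V) :
    X.dist v x = X.dist v y + 1 ∨ X.dist v y = X.dist v x + 1 := by
  have hc := h.connected
  obtain ⟨m, ⟨h1, h2, h3⟩, _⟩ := h.median x y v
  rw [SimpleGraph.dist_eq_one_iff_adj.2 hxy] at h1
  have e1 : X.dist m y = X.dist y m := SimpleGraph.dist_comm
  have e2 : X.dist v x = X.dist x v := SimpleGraph.dist_comm
  have e3 : X.dist v y = X.dist y v := SimpleGraph.dist_comm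
  omega

/-- Opposite edges of a square define the same halfspace. -/
lemma halfspace_parallel (h : IsMedianGraph X) {x y z w : V} (hxy : X.Adj x y) (hyz : X.Adj y z)
    (hzw : X.Adj z w) (hwx : X.Adj w x) (hxz : x ≠ z) (hyw : y ≠ w) :
    halfspace X x y = halfspace X w z := by
  have hc := h.connected
  -- one implication, in a form that can be reused
  have key : ∀ {x y z w : V}, X.Adj x y → X.Adj y z → X.Adj z w → X.Adj w x → x ≠ z → y ≠ w →
      ∀ v, X.dist v x < X.dist v y → X.dist v w < X.dist v z := by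
    intro x y z w hxy hyz hzw hwx hxz hyw v hv
    by_contra hcon
    have d1 := dist_adj_ne h hxy v
    have d2 := dist_adj_ne h hyz v
    have d3 := dist_adj_ne h hzw v
    have d4 := dist_adj_ne h hwx v
    have h5 : X.dist v y = X.dist v x + 1 := by omega
    have h6 : X.dist v w = X.dist v x + 1 := by omega
    have h7 : X.dist v z = X.dist v x := by omega
    -- `x` and `z` have the common neighbours `y`, `w` and the median with `v`
    obtain ⟨m, ⟨m1, m2, m3⟩, _⟩ := h.median x z v
    have e0 : X.dist x z = 2 := dist_eq_two h hxz hxy.symm hyz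
    have e1 : X.dist m z = X.dist z m := SimpleGraph.dist_comm
    have e2 : X.dist x v = X.dist v x := SimpleGraph.dist_comm
    have e3 : X.dist z v = X.dist v z := SimpleGraph.dist_comm
    have e4 : X.dist m v = X.dist v m := SimpleGraph.dist_comm
    have f1 : X.dist x m = 1 := by omega
    have f2 : X.dist z m = 1 := by omega
    have f3 : X.dist v m + 1 = X.dist v x := by omega
    rw [SimpleGraph.dist_eq_one_iff_adj] at f1 f2
    have hym : y ≠ m := by
      rintro rfl
      omega
    have hwm : w = m := no_K23 h hxz hxy hwx.symm f1 hyz.symm hzw f2 hyw hym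
    rw [← hwm] at f3
    omega
  ext v
  constructor
  · intro hv
    exact key hxy hyz hzw hwx hxz hyw v hv
  · intro hv
    exact key hzw.symm hyz.symm hxy.symm hwx.symm hyw.symm hxz.symm v hv

lemma smul_mem_halfspace (hG : GeometricAction G X) (hc : X.Connected) (g : G) (x y v : V) :
    g • v ∈ halfspace X (g • x) (g • y) ↔ v ∈ halfspace X x y := by
  simp [halfspace, dist_smul hG hc]

end Pool.Agent.Lib.MP_140312_al
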