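import Pool.Agent.Lib.MP_140312_al.Final

/-!
# Case one: the left half of a member of the family determines it
-/

open Filter

namespace Pool.Agent.Lib.MP_140312_al

variable {V : Type*} {G : Type*} [Group G] [MulAction G V] {X : SimpleGraph V}
  {𝓕 : Set (ℤ → ℤ → V)}

/-- By compactness, if the left half determines a flat of the family, then a finite window
determines the next vertex. -/
lemma exists_window (h : IsMedianGraph X) (hG : GeometricAction G X) (h𝓕 : IsFlatFamily G X 𝓕)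
    (hno : ∀ f ∈ 𝓕, ∀ f' ∈ 𝓕, (∀ i j, i ≤ 0 → f i j = f' i j) → f 1 0 = f' 1 0) :
    ∃ N : ℕ, ∀ f ∈ 𝓕, ∀ f' ∈ 𝓕,
      (∀ i j, -(N : ℤ) ≤ i → i ≤ 0 → -(N : ℤ) ≤ j → j ≤ N → f i j = f' i j) →
      f 1 0 = f' 1 0 := by
  have hc := h.connected
  by_contra hcon
  push Not at hcon
  choose u hu u' hu' hag hne using hcon
  obtain ⟨D, hD, hcov⟩ := hG.cocompact
  choose g hg using fun n => hcov (u n 0 0)
  have h00 : ∀ n, u n 0 0 = u' n 0 0 := fun n => hag n 0 0 (by omega) (by omega) (by omega)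
    (by omega)
  have hK : ∀ a : ℤ × ℤ, (⋃ x ∈ D, {y | X.dist x y ≤ a.1.natAbs + a.2.natAbs}).Finite :=
    fun a => hD.biUnion fun x _ => ball_finite hG hc x _
  have hmem : ∀ (w : ℤ → ℤ → V), IsFlat X w → ∀ n, w 0 0 = u n 0 0 → ∀ a : ℤ × ℤ,
      g n • w a.1 a.2 ∈ ⋃ x ∈ D, {y | X.dist x y ≤ a.1.natAbs + a.2.natAbs} := by
    intro w hw n hn a
    simp only [Set.mem_iUnion]
    refine ⟨g n • u n 0 0, hg n, ?_⟩
    show X.dist _ _ ≤ _
    rw [dist_smul hG hc, ← hn, hw]
    simp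
  obtain ⟨f, hf⟩ := ultralimit (fun n (a : ℤ × ℤ) => g n • u n a.1 a.2)
    (fun a => ⟨_, hK a, Eventually.of_forall fun n => hmem _ (h𝓕.isFlat _ (hu n)) n rfl a⟩)
  obtain ⟨f', hf'⟩ := ultralimit (fun n (a : ℤ × ℤ) => g n • u' n a.1 a.2)
    (fun a => ⟨_, hK a, Eventually.of_forall fun n =>
      hmem _ (h𝓕.isFlat _ (hu' n)) n (h00 n).symm a⟩)
  have hF : (fun i j => f (i, j)) ∈ 𝓕 :=
    h𝓕.of_limit (fun n => h𝓕.smul_mem (g n) _ (hu n)) (fun i j => hf (i, j))
  have hF' : (fun i j => f' (i, j)) ∈ 𝓕 :=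
    h𝓕.of_limit (fun n => h𝓕.smul_mem (g n) _ (hu' n)) (fun i j => hf' (i, j))
  have h1 := hno _ hF _ hF' (fun i j hi => by
    obtain ⟨n, h1, h2, h3⟩ := ((hf (i, j)).and ((hf' (i, j)).and
      (eventually_ge (i.natAbs + j.natAbs)))).exists
    simp only at h1 h2 ⊢
    rw [← h1, ← h2, hag n i j (by omega) hi (by omega) (by omega)])
  obtain ⟨n, h2, h3⟩ := ((hf (1, 0)).and (hf' (1, 0))).exists
  simp only at h1 h2 h3
  rw [← h2, ← h3] at h1
  exact hne n (MulAction.injective (g n) h1)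

/-- Propagation of equality to the right. -/
lemma propagate (h : IsMedianGraph X) (h𝓕 : IsFlatFamily G X 𝓕) {N : ℕ}
    (hN : ∀ f ∈ 𝓕, ∀ f' ∈ 𝓕,
      (∀ i j, -(N : ℤ) ≤ i → i ≤ 0 → -(N : ℤ) ≤ j → j ≤ N → f i j = f' i j) →
      f 1 0 = f' 1 0)
    {f f' : ℤ → ℤ → V} (hf : f ∈ 𝓕) (hf' : f' ∈ 𝓕) {x y : ℤ}
    (hag : ∀ i j, x - N ≤ i → i ≤ x → y - N ≤ j → j ≤ y + N → f i j = f' i j) :
    ∀ i j, x - N ≤ i → y - N ≤ j → j ≤ y + N → f i j = f' i j := by
  have key : ∀ t : ℕ, ∀ i j, x - N ≤ i → i ≤ x + t → y - N ≤ j → j ≤ y + N →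
      f i j = f' i j := by
    intro t
    induction t with
    | zero =>
      intro i j h1 h2 h3 h4
      exact hag i j h1 (by simpa using h2) h3 h4
    | succ t ih =>
      intro i j h1 h2 h3 h4
      by_cases hi : i ≤ x + t
      · exact ih i j h1 hi h3 h4
      · have hi' : i = x + t + 1 := by push_cast at h2; omega
        subst hi'
        apply flat_column h (h𝓕.isFlat _ hf) (h𝓕.isFlat _ hf') (i := x + t) (y := y) (N := N)
          (fun j hj1 hj2 => ih (x + t) j (by omega) (le_refl _) hj1 hj2) ?_ j h3 h4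
        have h5 := hN _ (h𝓕.translate_mem (x + t) y _ hf) _ (h𝓕.translate_mem (x + t) y _ hf')
          (fun i j h1 h2 h3 h4 => ih _ _ (by omega) (by omega) (by omega) (by omega))
        simpa [add_comm] using h5
  intro i j h1 h3 h4
  exact key (i - x).toNat i j h1 (by omega) h3 h4

/-- **Case one.** -/
lemma case_one (h : IsMedianGraph X) (hG : GeometricAction G X) (h𝓕 : IsFlatFamily G X 𝓕)
    (hno : ∀ f ∈ 𝓕, ∀ f' ∈ 𝓕, (∀ i j, i ≤ 0 → f i j = f' i j) → f 1 0 = f' 1 0)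
    (hne : 𝓕.Nonempty) :
    ∃ φ : Multiplicative (ℤ × ℤ) →* G, Function.Injective φ := by
  have hc := h.connected
  obtain ⟨f, hf⟩ := hne
  have hflat := h𝓕.isFlat _ hf
  obtain ⟨N₀, hN₀⟩ := exists_window h hG h𝓕 hno
  obtain ⟨N, hN1, hN⟩ : ∃ N : ℕ, 1 ≤ N ∧ ∀ f ∈ 𝓕, ∀ f' ∈ 𝓕,
      (∀ i j, -(N : ℤ) ≤ i → i ≤ 0 → -(N : ℤ) ≤ j → j ≤ N → f i j = f' i j) →
      f 1 0 = f' 1 0 := by
    refine ⟨N₀ + 1, by omega, fun f h1 f' h2 h3 => hN₀ f h1 f' h2 fun i j a b c d => ?_⟩
    exact h3 i j (by push_cast; omega) b (by push_cast; omega) (by push_cast; omega)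
  obtain ⟨M, hM⟩ := exists_stab_bound hG
  obtain ⟨C, hC⟩ := pigeonhole_uniform hG hc (κ := Fin (N + 1) × Fin (2 * N + 1)) (0, 0) (3 * N)
  -- horizontal periodicity of all horizontal strips, with a uniform period
  have hk : ∀ y : ℤ, ∃ k : G, ∀ i j : ℤ, (C : ℤ) ≤ i → y - N ≤ j → j ≤ y + N →
      k • f i j = f (i + C.factorial) j := by
    intro y
    obtain ⟨x, x', hxx', hx'C, g, hg⟩ := hC
      (fun x a => f ((x : ℤ) - N + (a.1 : ℕ)) (y - N + (a.2 : ℕ))) (by
        intro k a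
        rw [hflat]
        obtain ⟨a1, a2⟩ := a
        have h1 := a1.2
        have h2 := a2.2
        simp only [Fin.val_zero]
        omega)
    set P : ℕ := x' - x with hP
    have hPpos : 0 < P := by omega
    have hstep : ∀ i j : ℤ, (C : ℤ) ≤ i → y - N ≤ j → j ≤ y + N →
        g • f i j = f (i + P) j := by
      intro i j hi hj1 hj2
      have := propagate h h𝓕 hN (h𝓕.smul_mem g _ hf) (h𝓕.translate_mem P 0 _ hf) (x := x) (y := y)
        (fun i j h1 h2 h3 h4 => ?_) i j (by omega) hj1 hj2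
      · simpa using this
      · have h5 := hg (⟨(i - (x - N)).toNat, by omega⟩, ⟨(j - (y - N)).toNat, by omega⟩)
        simp only at h5
        rw [show (x : ℤ) - N + ((i - (x - N)).toNat : ℤ) = i by omega,
          show y - N + ((j - (y - N)).toNat : ℤ) = j by omega,
          show (x' : ℤ) - N + ((i - (x - N)).toNat : ℤ) = i + P by omega] at h5
        simp [h5]
    have hpow : ∀ (n : ℕ) (i j : ℤ), (C : ℤ) ≤ i → y - N ≤ j → j ≤ y + N →
        g ^ n • f i j = f (i + n * P) j := by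
      intro n
      induction n with
      | zero => intro i j _ _ _; simp
      | succ n ih =>
        intro i j hi hj1 hj2
        rw [pow_succ, mul_smul, hstep i j hi hj1 hj2, ih _ _ (by omega) hj1 hj2]
        congr 1
        push_cast
        ring
    obtain ⟨m, hm⟩ : P ∣ C.factorial := Nat.dvd_factorial hPpos (by omega)
    refine ⟨g ^ m, fun i j hi hj1 hj2 => ?_⟩
    rw [hpow m i j hi hj1 hj2]
    congr 1
    rw [hm]
    push_cast
    ring
  choose k hk using hk
  have hkn : ∀ (y : ℤ) (n : ℕ) (i j : ℤ), (C : ℤ) ≤ i → y - N ≤ j → j ≤ y + N →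
      k y ^ n • f i j = f (i + n * C.factorial) j := by
    intro y n
    induction n with
    | zero => intro i j _ _ _; simp
    | succ n ih =>
      intro i j hi hj1 hj2
      rw [pow_succ, mul_smul, hk y i j hi hj1 hj2, ih _ _ (by omega) hj1 hj2]
      congr 1
      push_cast
      ring
  have hstep : ∀ y : ℤ, k y ^ M.factorial = k (y + 1) ^ M.factorial := by
    intro y
    apply pow_factorial_eq hG hM _ _ (f C (y + 1))
    intro n _
    rw [hkn y n _ _ (le_refl _) (by omega) (by omega),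
      hkn (y + 1) n _ _ (le_refl _) (by omega) (by omega)]
  have hconst : ∀ y : ℤ, k y ^ M.factorial = k 0 ^ M.factorial := by
    intro y
    induction y using Int.induction_on with
    | zero => rfl
    | succ i hi => rw [← hstep, hi]
    | pred i hi =>
      have := hstep (-(i : ℤ) - 1)
      rw [this, show -(i : ℤ) - 1 + 1 = -i by ring, hi]
  have hM' := Nat.factorial_pos M
  have hC' := Nat.factorial_pos C
  apply z2_of_quarter h hG (u := fun i j => f (C + i) j) ?_ (k 0 ^ M.factorial)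
    (M.factorial * C.factorial) (by positivity) ?_
  · intro i j i' j'
    rw [hflat]
    omega
  · intro i j
    rw [← hconst j, hkn j _ _ _ (by omega) (by omega) (by omega)]
    congr 1
    push_cast
    ring

end Pool.Agent.Lib.MP_140312_al
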