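import Pool.Agent.Lib.MP_140312_al.Periodic

/-!
# Case two: a member of the family one of whose columns is periodic
-/

open Filter

namespace Pool.Agent.Lib.MP_140312_al

variable {V : Type*} {G : Type*} [Group G] [MulAction G V] {X : SimpleGraph V}
  {𝓕 : Set (ℤ → ℤ → V)}

/-- If from some column on the family does not branch along the columns of `f`, then the right
half of `f` is periodic. -/
lemma case_two_finite (h : IsMedianGraph X) (hG : GeometricAction G X)
    (h𝓕 : IsFlatFamily G X 𝓕) (k : ℕ)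
    {f : ℤ → ℤ → V} (hf : f ∈ 𝓕) {g : G} {p : ℕ} (hp : 0 < p)
    (hg : ∀ j, g • f 0 j = f 0 (j + p)) (i₀ : ℕ)
    (hi₀ : ∀ i : ℕ, i₀ ≤ i → ¬ IsBranchLine 𝓕 k (f i)) :
    ∃ φ : Multiplicative (ℤ × ℤ) →* G, Function.Injective φ := by
  have hc := h.connected
  have hfl := h𝓕.isFlat _ hf
  obtain ⟨n, hn, hi⟩ := per_columns h hG hfl hg (i₀ + k)
  have key : ∀ i : ℕ, ∀ i' : ℕ, i' ≤ i → ∀ j : ℤ,
      g ^ n • f i' j = f i' (j + (n * p : ℕ)) := by
    intro i
    induction i with
    | zero =>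
      intro i' hi' j
      exact hi i' (by omega) j
    | succ i ih =>
      intro i' hi' j
      rcases Nat.lt_or_ge i i' with hlt | hge
      swap
      · exact ih i' hge j
      obtain rfl : i' = i + 1 := by omega
      rcases Nat.lt_or_ge i (i₀ + k) with hlt' | hge'
      · exact hi _ (by omega) j
      have hf' : (fun a b => g ^ n • f (a + 0) (b + -((n * p : ℕ) : ℤ))) ∈ 𝓕 :=
        h𝓕.smul_mem (g ^ n) _ (h𝓕.translate_mem 0 (-((n * p : ℕ) : ℤ)) _ hf)
      have hagree : ∀ i' : ℕ, i' ≤ i → ∀ b : ℤ,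
          g ^ n • f i' (b + -((n * p : ℕ) : ℤ)) = f i' b := by
        intro i' hi' b
        rw [ih i' hi']
        congr 1
        ring
      have h1 : f ((i : ℤ) + 1) 0 = g ^ n • f ((i : ℤ) + 1 + 0) (0 + -((n * p : ℕ) : ℤ)) := by
        by_contra hne
        apply hi₀ i (by omega)
        refine ⟨_, h𝓕.translate_mem i 0 _ hf, _, h𝓕.translate_mem i 0 _ hf', ?_, ?_, ?_⟩
        · intro j
          simp
        · intro a b ha1 ha2
          obtain ⟨c, hc'⟩ : ∃ c : ℕ, a + (i : ℤ) = c := ⟨(a + i).toNat, by omega⟩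
          show f (a + i) (b + 0) = g ^ n • f (a + i + 0) (b + 0 + -((n * p : ℕ) : ℤ))
          rw [add_zero, add_zero, hc']
          exact (hagree c (by omega) b).symm
        · intro h2
          apply hne
          simp only [add_zero, zero_add] at h2 ⊢
          rw [add_comm (1 : ℤ)] at h2
          exact h2
      have hcol := flat_column_all h hfl (h𝓕.isFlat _ hf') (i := (i : ℤ)) (y := 0) (fun j => by
        rw [add_zero]
        exact (hagree i le_rfl j).symm) h1 (j + (n * p : ℕ))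
      rw [add_zero, show j + ((n * p : ℕ) : ℤ) + -((n * p : ℕ) : ℤ) = j by ring] at hcol
      push_cast at hcol ⊢
      exact hcol.symm
  apply z2_of_quarter h hG (u := fun i j : ℕ => f j i) ?_ (g ^ n) (n * p) (by positivity) ?_
  · intro i j i' j'
    rw [hfl]
    omega
  · intro i j
    rw [key j j le_rfl]
    congr 1

/-- If a flat with a periodic column has infinitely many pairwise equivalent columns, we find
`ℤ × ℤ`. -/
lemma case_two_infinite (h : IsMedianGraph X) (hG : GeometricAction G X)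
    {f : ℤ → ℤ → V} (hf : IsFlat X f) {g : G} {p : ℕ} (hp : 0 < p)
    (hg : ∀ j, g • f 0 j = f 0 (j + p)) (T : Set ℕ) (hTinf : T.Infinite)
    (hT : ∀ k ∈ T, ∀ l ∈ T, LineEquiv G (f (k : ℤ)) (f (l : ℤ))) :
    ∃ φ : Multiplicative (ℤ × ℤ) →* G, Function.Injective φ := by
  classical
  have hc := h.connected
  obtain ⟨d, hd⟩ := exists_dimLE h hG
  obtain ⟨M, hM⟩ := exists_stab_bound hG
  obtain ⟨i₀, hi₀⟩ := hTinf.nonempty
  have hh : ∀ i : ℕ, ∃ (a : G) (q : ℤ), i ∈ T → ∀ j, a • f i₀ j = f i (j + q) := by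
    intro i
    by_cases hi : i ∈ T
    · obtain ⟨a, q, haq⟩ := hT i₀ hi₀ i hi
      exact ⟨a, q, fun _ => haq⟩
    · exact ⟨1, 0, fun hi' => absurd hi' hi⟩
  choose a q haq using hh
  -- pigeonhole on the next vertex
  have := hTinf.to_subtype
  have hwmem : ∀ i : T, (a i)⁻¹ • f ((i : ℕ) + 1 : ℤ) (q i) ∈ {y | X.Adj (f i₀ 0) y} := by
    intro i
    show X.Adj _ _
    rw [← SimpleGraph.dist_eq_one_iff_adj, ← dist_smul hG hc (a i), smul_inv_smul,
      haq i i.2 0, zero_add]
    exact hf.dist_right _ _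
  have hfin : Finite {y | X.Adj (f i₀ 0) y} := hG.locallyFinite _
  obtain ⟨y, hy⟩ := Finite.exists_infinite_fiber (fun i : T => (⟨_, hwmem i⟩ :
    {y | X.Adj (f i₀ 0) y}))
  set T' : Set ℕ := Subtype.val '' ((fun i : T => (⟨_, hwmem i⟩ :
    {y | X.Adj (f i₀ 0) y})) ⁻¹' {y}) with hT'
  have hT'inf : T'.Infinite := (Set.infinite_coe_iff.1 hy).image Subtype.val_injective.injOn
  have hT'T : ∀ i ∈ T', i ∈ T ∧ (a i)⁻¹ • f ((i : ℕ) + 1 : ℤ) (q i) = y := by
    rintro _ ⟨i, hi, rfl⟩
    refine ⟨i.2, ?_⟩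
    have : (⟨_, hwmem i⟩ : {y | X.Adj (f i₀ 0) y}) = y := hi
    exact congrArg Subtype.val this
  obtain ⟨k, hk, l, hl, hkl, hcr⟩ := exists_not_crossing hd T' hT'inf
    (fun k => f ((k : ℤ) + 1) 0) (fun k => f k 0) (fun k => by
      rw [← SimpleGraph.dist_eq_one_iff_adj, SimpleGraph.dist_comm]
      exact hf.dist_right _ _)
  obtain ⟨hkT, hky⟩ := hT'T k hk
  obtain ⟨hlT, hly⟩ := hT'T l hl
  set η : G := a l * (a k)⁻¹ with hη
  have hη0 : ∀ j : ℤ, η • f k (j + q k) = f l (j + q l) := by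
    intro j
    rw [hη, mul_smul, ← haq k hkT, inv_smul_smul, haq l hlT]
  have hη1 : η • f ((k : ℤ) + 1) (q k) = f ((l : ℤ) + 1) (q l) := by
    rw [hη, mul_smul, hky, ← hly, smul_inv_smul]
  obtain ⟨n, hn, hi⟩ := per_columns h hG hf hg (l + 1)
  have hpow : ∀ (m : ℕ) (i' : ℕ), i' ≤ l + 1 → ∀ j : ℤ,
      (g ^ n) ^ m • f i' j = f i' (j + (m : ℤ) * ((n * p : ℕ) : ℤ)) := fun r i' hi' j =>
    pow_translate (L := f i') (g := g ^ n) (p := n * p) (hi i' hi') r j
  have hconj : (η * g ^ n * η⁻¹) ^ M.factorial = (g ^ n) ^ M.factorial := by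
    apply pow_factorial_eq hG hM _ _ (f l (q l))
    intro m _
    have h1 : η⁻¹ • f l (q l) = f k (q k) := by
      rw [inv_smul_eq_iff]
      have := hη0 0
      rw [zero_add, zero_add] at this
      exact this.symm
    rw [conj_pow, mul_smul, mul_smul, h1, hpow m k (by omega), hpow m l (by omega),
      add_comm (q k), hη0, add_comm (q l)]
  have hcomm : (g ^ n) ^ M.factorial * η = η * (g ^ n) ^ M.factorial := by
    rw [conj_pow] at hconj
    calc (g ^ n) ^ M.factorial * η = η * (g ^ n) ^ M.factorial * η⁻¹ * η := by rw [hconj]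
      _ = η * (g ^ n) ^ M.factorial := by group
  have hsub : halfspace X (f ((l : ℤ) + 1) 0) (f l 0) ⊆ halfspace X (f ((k : ℤ) + 1) 0) (f k 0) := by
    apply subset_of_not_crossing hcr (x := f k 0) (y := f ((k : ℤ) + 1) 0)
      (y' := f ((l : ℤ) + 1) 0)
    · constructor
      · show ¬ X.dist _ _ < X.dist _ _
        rw [hf, hf]
        omega
      · show ¬ X.dist _ _ < X.dist _ _
        rw [hf, hf]
        omega
    · constructor
      · show X.dist _ _ < X.dist _ _
        rw [hf, hf]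
        omega
      · show ¬ X.dist _ _ < X.dist _ _
        rw [hf, hf]
        omega
    · constructor
      · show X.dist _ _ < X.dist _ _
        rw [hf, hf]
        omega
      · show X.dist _ _ < X.dist _ _
        rw [hf, hf]
        omega
  have hηH : ∀ v, η • v ∈ halfspace X (f ((l : ℤ) + 1) 0) (f l 0) ↔
      v ∈ halfspace X (f ((k : ℤ) + 1) 0) (f k 0) := by
    intro v
    have h1 := smul_mem_halfspace hG hc η (f ((k : ℤ) + 1) (q k)) (f k (q k)) v
    have h2 := hη0 0
    rw [zero_add, zero_add] at h2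
    rw [hη1, h2, flat_halfspace h hf l (q l), flat_halfspace h hf k (q k)] at h1
    exact h1
  refine z2_of_commute hcomm (halfspace X (f ((k : ℤ) + 1) 0) (f k 0)) ?_ ?_
    (f ((k : ℤ) + 1) 0) ?_ ?_ ?_
  · intro v
    have h1 := smul_mem_halfspace hG hc ((g ^ n) ^ M.factorial) (f ((k : ℤ) + 1) 0) (f k 0) v
    have h2 := hpow M.factorial (k + 1) (by omega) 0
    rw [Nat.cast_add, Nat.cast_one] at h2
    rw [h2, hpow _ _ (by omega), flat_halfspace h hf] at h1
    exact h1
  · intro v hv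
    exact hsub ((hηH v).2 hv)
  · show X.dist _ _ < X.dist _ _
    rw [hf, hf]
    omega
  · intro hcon
    have h1 := (hηH _).2 hcon
    rw [smul_inv_smul] at h1
    have h2 : X.dist _ _ < X.dist _ _ := h1
    rw [hf, hf] at h2
    omega
  · intro r hr hcon
    have h1 : ((g ^ n) ^ M.factorial) ^ r • f l 0 = f l 0 := by rw [hcon, one_smul]
    rw [← pow_mul, hpow _ _ (by omega)] at h1
    have h2 := hf l (0 + ((M.factorial * r : ℕ) : ℤ) * ((n * p : ℕ) : ℤ)) l 0
    rw [h1] at h2
    simp only [SimpleGraph.dist_self] at h2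
    have h3 : 0 < M.factorial * r * (n * p) := by
      have := Nat.factorial_pos M
      positivity
    have h4 : (0 : ℤ) < ((M.factorial * r : ℕ) : ℤ) * ((n * p : ℕ) : ℤ) := by exact_mod_cast h3
    omega

/-- **Case two.** A member of the family has a periodic column, and the periodic lines along which
the family branches form finitely many classes. -/
lemma case_two (h : IsMedianGraph X) (hG : GeometricAction G X)
    (h𝓕 : IsFlatFamily G X 𝓕) (k : ℕ)
    (hfin : ∃ S : Set (ℤ → V), S.Finite ∧ ∀ L : ℤ → V, IsBranchLine 𝓕 k L →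
      IsPeriodicLine G L → ∃ L' ∈ S, LineEquiv G L L')
    {f : ℤ → ℤ → V} (hf : f ∈ 𝓕) (hf0 : IsPeriodicLine G (f 0)) :
    ∃ φ : Multiplicative (ℤ × ℤ) →* G, Function.Injective φ := by
  classical
  have hfl := h𝓕.isFlat _ hf
  obtain ⟨g, p, hp, hg⟩ := hf0.exists_pos
  by_cases hinf : {i : ℕ | IsBranchLine 𝓕 k (f i)}.Infinite
  · -- infinitely many columns are branch lines; all of them are periodic
    obtain ⟨S, hS, hSL⟩ := hfin
    have hper : ∀ i : ℕ, IsPeriodicLine G (f i) := by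
      intro i
      obtain ⟨n, hn, hi⟩ := per_columns h hG hfl hg i
      refine ⟨g ^ n, (n * p : ℕ), ?_, fun j => hi i le_rfl j⟩
      have : 0 < n * p := Nat.mul_pos hn hp
      omega
    have hex : ∀ i : {i : ℕ | IsBranchLine 𝓕 k (f i)}, ∃ L' : S, LineEquiv G (f (i : ℕ)) L' := by
      intro i
      obtain ⟨L', hL', h1⟩ := hSL _ i.2 (hper i)
      exact ⟨⟨L', hL'⟩, h1⟩
    choose c hc' using hex
    have := hinf.to_subtype
    have : Finite S := hS
    obtain ⟨y, hy⟩ := Finite.exists_infinite_fiber c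
    apply case_two_infinite h hG hfl hp hg (Subtype.val '' (c ⁻¹' {y}))
      ((Set.infinite_coe_iff.1 hy).image Subtype.val_injective.injOn)
    rintro _ ⟨a, ha, rfl⟩ _ ⟨b, hb, rfl⟩
    have h1 := hc' a
    have h2 := hc' b
    rw [show c a = y from ha] at h1
    rw [show c b = y from hb] at h2
    exact h1.trans h2.symm
  · rw [Set.not_infinite] at hinf
    obtain ⟨B, hB⟩ := hinf.bddAbove
    refine case_two_finite h hG h𝓕 k hf hp hg (B + 1) (fun i hi hcon => ?_)
    have := hB hcon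
    omega

end Pool.Agent.Lib.MP_140312_al
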