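import Mathlib

/-!
# Definitions for `MP_140312_al` (lines along which flats branch)

A CAT(0) cube complex is encoded by its 1-skeleton, which is a median graph (and every median graph
is the 1-skeleton of a unique CAT(0) cube complex).
-/

namespace Pool.Agent.Lib.MP_140312_al

variable {V : Type*}

/-- `X` is a median graph: it is connected, and any three vertices `x, y, z` have exactly one
median, a vertex lying on a shortest path between each two of them. Median graphs are exactly
the 1-skeleta of CAT(0) cube complexes. -/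
structure IsMedianGraph (X : SimpleGraph V) : Prop where
  connected : X.Connected
  median : ∀ x y z : V, ∃! m : V, X.dist x m + X.dist m y = X.dist x y ∧
    X.dist y m + X.dist m z = X.dist y z ∧ X.dist x m + X.dist m z = X.dist x z

/-- The group `G` acts geometrically (by automorphisms, properly and cocompactly) on the cube
complex with 1-skeleton `X`: it acts by graph automorphisms, vertex stabilisers are finite,
there are finitely many orbits of vertices, and `X` is locally finite. -/
structure GeometricAction (G : Type*) [Group G] [MulAction G V] (X : SimpleGraph V) : Prop where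
  adj_iff : ∀ (g : G) (x y : V), X.Adj (g • x) (g • y) ↔ X.Adj x y
  finite_stabilizer : ∀ x : V, {g : G | g • x = x}.Finite
  cocompact : ∃ D : Set V, D.Finite ∧ ∀ x, ∃ g : G, g • x ∈ D
  locallyFinite : ∀ x, {y | X.Adj x y}.Finite

/-- `X` is Gromov hyperbolic (four-point condition for its graph metric): for some `δ` and all
`x, y, z, w`, `d x y + d z w ≤ max (d x z + d y w) (d x w + d y z) + δ`. -/
def IsHyperbolic (X : SimpleGraph V) : Prop :=
  ∃ δ : ℕ, ∀ x y z w : V, X.dist x y + X.dist z w ≤
    max (X.dist x z + X.dist y w) (X.dist x w + X.dist y z) + δ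

/-- A (combinatorial) flat: an isometric embedding of the square grid `ℤ × ℤ` (with its graph
metric) into `X`. Its `i`-th column is the line `f i`, that is, `j ↦ f i j`. -/
def IsFlat (X : SimpleGraph V) (f : ℤ → ℤ → V) : Prop :=
  ∀ i j i' j' : ℤ, X.dist (f i j) (f i' j') = (i - i').natAbs + (j - j').natAbs

/-- A closed invariant family of flats: it is preserved by `G` and by the translations of
`ℤ × ℤ`, and contains every map all of whose finite windows are windows of members of the
family. (For instance, the family of all flats.) -/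
structure IsFlatFamily (G : Type*) [Group G] [MulAction G V] (X : SimpleGraph V)
    (𝓕 : Set (ℤ → ℤ → V)) : Prop where
  isFlat : ∀ f ∈ 𝓕, IsFlat X f
  smul_mem : ∀ g : G, ∀ f ∈ 𝓕, (fun i j => g • f i j) ∈ 𝓕
  translate_mem : ∀ a b : ℤ, ∀ f ∈ 𝓕, (fun i j => f (i + a) (j + b)) ∈ 𝓕
  limit_mem : ∀ f, (∀ n : ℕ, ∃ f' ∈ 𝓕, ∀ i j : ℤ, i.natAbs ≤ n → j.natAbs ≤ n →
    f' i j = f i j) → f ∈ 𝓕

/-- `𝓕` branches along the line `L` (with memory `k`): two members of `𝓕` whose column `0` is `L`
agree on the columns `-k, …, 0` but not on column `1`. -/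
def IsBranchLine (𝓕 : Set (ℤ → ℤ → V)) (k : ℕ) (L : ℤ → V) : Prop :=
  ∃ f ∈ 𝓕, ∃ f' ∈ 𝓕, (∀ j, f 0 j = L j) ∧
    (∀ i j : ℤ, -(k : ℤ) ≤ i → i ≤ 0 → f i j = f' i j) ∧ f 1 0 ≠ f' 1 0

/-- The line `L` is periodic: some element of `G` translates it nontrivially. -/
def IsPeriodicLine (G : Type*) [Group G] [MulAction G V] (L : ℤ → V) : Prop :=
  ∃ (g : G) (p : ℤ), p ≠ 0 ∧ ∀ j, g • L j = L (j + p)

/-- The lines `L` and `L'` are equivalent: they differ by an element of `G` and a translation of
the parameter. -/
def LineEquiv (G : Type*) [Group G] [MulAction G V] (L L' : ℤ → V) : Prop :=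
  ∃ (g : G) (q : ℤ), ∀ j, g • L j = L' (j + q)

/-- The line `L` accumulates on a periodic line `L'`: every finite window of `L'` is a translate
(by an element of `G`) of a window of `L`. (A periodic line accumulates on itself.) -/
def AccumulatesPeriodic (G : Type*) [Group G] [MulAction G V] (L : ℤ → V) : Prop :=
  ∃ L' : ℤ → V, IsPeriodicLine G L' ∧
    ∀ n : ℕ, ∃ (g : G) (q : ℤ), ∀ j : ℤ, j.natAbs ≤ n → g • L (j + q) = L' j

end Pool.Agent.Lib.MP_140312_al
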