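import Pool.Agent.Lib.MP_140312_al.Halfspaces

/-!
# Producing `ℤ × ℤ`
-/

open Filter

set_option linter.unusedSimpArgs false

namespace Pool.Agent.Lib.MP_140312_al

variable {V : Type*} {G : Type*} [Group G] [MulAction G V] {X : SimpleGraph V}

lemma crossing_symm {A B : Set V} (h : Crossing A B) : Crossing B A := by
  obtain ⟨h1, h2, h3, h4⟩ := h
  exact ⟨by rwa [Set.inter_comm], by rwa [Set.inter_comm], by rwa [Set.inter_comm],
    by rwa [Set.inter_comm]⟩

/-- Two commuting elements, one of which skewers a halfspace preserved by the other one of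
infinite order, generate `ℤ × ℤ`. -/
lemma z2_of_commute {c h : G} (hcomm : c * h = h * c) (H : Set V)
    (hc : ∀ v, c • v ∈ H ↔ v ∈ H) (hh : ∀ v, v ∈ H → h • v ∈ H) (v₀ : V) (hv₀ : v₀ ∈ H)
    (hv₀' : h⁻¹ • v₀ ∉ H) (hord : ∀ q : ℕ, 0 < q → c ^ q ≠ 1) :
    ∃ φ : Multiplicative (ℤ × ℤ) →* G, Function.Injective φ := by
  have hC : Commute c h := hcomm
  let φ : Multiplicative (ℤ × ℤ) →* G :=
    { toFun := fun z => c ^ (z.toAdd.1) * h ^ (z.toAdd.2)
      map_one' := by simp
      map_mul' := by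
        intro z w
        simp only [toAdd_mul, Prod.fst_add, Prod.snd_add, zpow_add]
        have h1 : c ^ (w.toAdd.1) * h ^ (z.toAdd.2) = h ^ (z.toAdd.2) * c ^ (w.toAdd.1) :=
          (hC.zpow_zpow _ _)
        calc c ^ z.toAdd.1 * c ^ w.toAdd.1 * (h ^ z.toAdd.2 * h ^ w.toAdd.2)
            = c ^ z.toAdd.1 * (c ^ w.toAdd.1 * h ^ z.toAdd.2) * h ^ w.toAdd.2 := by group
          _ = c ^ z.toAdd.1 * h ^ z.toAdd.2 * (c ^ w.toAdd.1 * h ^ w.toAdd.2) := by
            rw [h1]; group }
  refine ⟨φ, ?_⟩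
  rw [injective_iff_map_eq_one]
  intro z hz
  have hz' : c ^ (z.toAdd.1) * h ^ (z.toAdd.2) = 1 := hz
  set m := z.toAdd.1 with hm
  set n := z.toAdd.2 with hn
  have hcz : ∀ (k : ℤ) v, c ^ k • v ∈ H ↔ v ∈ H := by
    have hnat : ∀ (k : ℕ) v, c ^ k • v ∈ H ↔ v ∈ H := by
      intro k
      induction k with
      | zero => intro v; simp
      | succ k ih =>
        intro v
        rw [pow_succ, mul_smul, ih, hc]
    intro k v
    obtain ⟨k, rfl | rfl⟩ := k.eq_nat_or_neg
    · rw [zpow_natCast]; exact hnat k v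
    · rw [zpow_neg, zpow_natCast, ← hnat k ((c ^ k)⁻¹ • v), smul_inv_smul]
  have hhp : ∀ (k : ℕ) v, v ∈ H → h ^ k • v ∈ H := by
    intro k
    induction k with
    | zero => intro v hv; simpa using hv
    | succ k ih =>
      intro v hv
      rw [pow_succ, mul_smul]
      exact ih _ (hh v hv)
  have hneg : ∀ k : ℕ, 0 < k → (h ^ k)⁻¹ • v₀ ∉ H := by
    intro k hk hcon
    apply hv₀'
    have h1 := hhp (k - 1) _ hcon
    have h2 : h ^ (k - 1) • (h ^ k)⁻¹ • v₀ = h⁻¹ • v₀ := by
      rw [← mul_smul]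
      congr 1
      obtain ⟨j, rfl⟩ : ∃ j, k = j + 1 := ⟨k - 1, by omega⟩
      rw [Nat.add_sub_cancel, pow_succ]
      group
    rwa [h2] at h1
  have hn0 : n = 0 := by
    by_contra hne
    rcases lt_or_gt_of_ne hne with hlt | hgt
    · -- n < 0
      obtain ⟨k, hk⟩ : ∃ k : ℕ, n = -(k : ℤ) := ⟨n.natAbs, by omega⟩
      have hkpos : 0 < k := by omega
      rw [hk, zpow_neg, zpow_natCast] at hz'
      have h1 : (h ^ k)⁻¹ = c ^ (-m) := by
        rw [zpow_neg]
        exact eq_inv_of_mul_eq_one_right hz'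
      exact hneg k hkpos (by rw [h1, hcz]; exact hv₀)
    · obtain ⟨k, hk⟩ : ∃ k : ℕ, n = (k : ℤ) := ⟨n.natAbs, by omega⟩
      have hkpos : 0 < k := by omega
      rw [hk, zpow_natCast] at hz'
      have h1 : (h ^ k)⁻¹ = c ^ m := (eq_inv_of_mul_eq_one_left hz').symm
      exact hneg k hkpos (by rw [h1, hcz]; exact hv₀)
  have hm0 : m = 0 := by
    rw [hn0, zpow_zero, mul_one] at hz'
    by_contra hne
    rcases lt_or_gt_of_ne hne with hlt | hgt
    · obtain ⟨k, hk⟩ : ∃ k : ℕ, m = -(k : ℤ) := ⟨m.natAbs, by omega⟩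
      rw [hk, zpow_neg, zpow_natCast, inv_eq_one] at hz'
      exact hord k (by omega) hz'
    · obtain ⟨k, hk⟩ : ∃ k : ℕ, m = (k : ℤ) := ⟨m.natAbs, by omega⟩
      rw [hk, zpow_natCast] at hz'
      exact hord k (by omega) hz'
  apply Multiplicative.toAdd.injective
  exact Prod.ext hm0 hn0

lemma subset_of_not_crossing {H H' : Set V} (hn : ¬ Crossing H H') {x y y' : V}
    (hx : x ∉ H ∧ x ∉ H') (hy : y ∈ H ∧ y ∉ H') (hy' : y' ∈ H ∧ y' ∈ H') : H' ⊆ H := by
  intro v hv
  by_contra hvH
  exact hn ⟨⟨y', hy'⟩, ⟨y, hy⟩, ⟨v, hvH, hv⟩, ⟨x, hx⟩⟩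

lemma exists_not_crossing {d : ℕ} (hd : DimLE X d) (T : Set ℕ) (hT : T.Infinite)
    (x y : ℕ → V) (hxy : ∀ k, X.Adj (x k) (y k)) :
    ∃ k ∈ T, ∃ l ∈ T, k < l ∧ ¬ Crossing (halfspace X (x k) (y k)) (halfspace X (x l) (y l)) := by
  have := hT.to_subtype
  let e := Infinite.natEmbedding T
  obtain ⟨a, b, hab, hcr⟩ := hd (fun i => x (e i)) (fun i => y (e i)) (fun i => hxy _)
  have hne : ((e a : T) : ℕ) ≠ (e b : T) := by
    intro heq
    apply hab
    have := e.injective (Subtype.ext heq)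
    exact Fin.ext this
  rcases lt_or_gt_of_ne hne with h | h
  · exact ⟨_, (e a).2, _, (e b).2, h, hcr⟩
  · exact ⟨_, (e b).2, _, (e a).2, h, fun hc => hcr (crossing_symm hc)⟩

/-- Isometric quarter planes. -/
def IsQuarter (X : SimpleGraph V) (u : ℕ → ℕ → V) : Prop :=
  ∀ i j i' j' : ℕ, X.dist (u i j) (u i' j') = ((i : ℤ) - i').natAbs + ((j : ℤ) - j').natAbs

lemma quarter_halfspace (h : IsMedianGraph X) {u : ℕ → ℕ → V} (hu : IsQuarter X u) (k : ℕ) :
    ∀ i, halfspace X (u i (k + 1)) (u i k) = halfspace X (u 0 (k + 1)) (u 0 k) := by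
  intro i
  induction i with
  | zero => rfl
  | succ i ih =>
    rw [← ih]
    symm
    apply halfspace_parallel h
    · rw [← SimpleGraph.dist_eq_one_iff_adj, hu]
      push_cast
      have : ((k : ℤ) + 1 - k).natAbs = 1 := by
        rw [show (k : ℤ) + 1 - k = 1 by ring]; rfl
      simp [this]
    · rw [← SimpleGraph.dist_eq_one_iff_adj, hu]
      push_cast
      have : ((i : ℤ) - (i + 1)).natAbs = 1 := by
        rw [show (i : ℤ) - (i + 1) = -1 by ring]; rfl
      simp [this]
    · rw [← SimpleGraph.dist_eq_one_iff_adj, hu]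
      push_cast
      have : ((k : ℤ) - (k + 1)).natAbs = 1 := by
        rw [show (k : ℤ) - (k + 1) = -1 by ring]; rfl
      simp [this]
    · rw [← SimpleGraph.dist_eq_one_iff_adj, hu]
      push_cast
      have : ((i : ℤ) + 1 - i).natAbs = 1 := by
        rw [show (i : ℤ) + 1 - i = 1 by ring]; rfl
      simp [this]
    · intro heq
      have := hu i (k + 1) (i + 1) k
      rw [heq] at this
      simp only [SimpleGraph.dist_self] at this
      omega
    · intro heq
      have := hu i k (i + 1) (k + 1)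
      rw [heq] at this
      simp only [SimpleGraph.dist_self] at this
      omega

/-- **Final step**: an isometric quarter plane with a translation in one direction gives
`ℤ × ℤ`. -/
lemma z2_of_quarter (h : IsMedianGraph X) (hG : GeometricAction G X) {u : ℕ → ℕ → V}
    (hu : IsQuarter X u) (κ : G) (Q : ℕ) (hQ : 0 < Q) (hκ : ∀ i j, κ • u i j = u (i + Q) j) :
    ∃ φ : Multiplicative (ℤ × ℤ) →* G, Function.Injective φ := by
  have hc := h.connected
  obtain ⟨d, hd⟩ := exists_dimLE h hG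
  obtain ⟨M, hM⟩ := exists_stab_bound hG
  have hκn : ∀ (n i j : ℕ), κ ^ n • u i j = u (i + n * Q) j := by
    intro n
    induction n with
    | zero => intro i j; simp
    | succ n ih =>
      intro i j
      rw [pow_succ, mul_smul, hκ, ih]
      congr 1
      ring
  -- pigeonhole
  obtain ⟨T, _, hTinf, hT⟩ := pigeonhole_infinite hG hc (κ := Fin (M * Q + 1) × Fin 2)
    (0, 0) (M * Q + 1) Set.univ Set.infinite_univ (fun j a => u a.1 (j + a.2)) (by
      intro k a
      rw [hu]
      obtain ⟨a1, a2⟩ := a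
      have h1 := a1.2
      have h2 := a2.2
      simp only [Fin.val_zero]
      omega)
  obtain ⟨k, hk, l, hl, hkl, hcr⟩ := exists_not_crossing hd T hTinf
    (fun k => u 0 (k + 1)) (fun k => u 0 k) (fun k => by
      rw [← SimpleGraph.dist_eq_one_iff_adj, hu]
      push_cast
      have : ((k : ℤ) + 1 - k).natAbs = 1 := by
        rw [show (k : ℤ) + 1 - k = 1 by ring]; rfl
      simp [this])
  obtain ⟨g, hg⟩ := hT k hk l hl
  have hg0 : ∀ a : ℕ, a ≤ M * Q → g • u a k = u a l := by
    intro a ha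
    have := hg (⟨a, by omega⟩, 0)
    simpa using this
  have hg1 : g • u 0 (k + 1) = u 0 (l + 1) := by
    have := hg (⟨0, by omega⟩, 1)
    simpa using this
  have hconj : (g * κ * g⁻¹) ^ M.factorial = κ ^ M.factorial := by
    apply pow_factorial_eq hG hM _ _ (u 0 l)
    intro n hn
    have h1 : g⁻¹ • u 0 l = u 0 k := by
      rw [inv_smul_eq_iff]
      exact (hg0 0 (by omega)).symm
    rw [conj_pow, mul_smul, mul_smul, h1, hκn, hκn, hg0]
    rw [zero_add]
    exact Nat.mul_le_mul_right Q hn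
  have hcomm : κ ^ M.factorial * g = g * κ ^ M.factorial := by
    rw [conj_pow] at hconj
    calc κ ^ M.factorial * g = g * κ ^ M.factorial * g⁻¹ * g := by rw [hconj]
      _ = g * κ ^ M.factorial := by group
  have hsub : halfspace X (u 0 (l + 1)) (u 0 l) ⊆ halfspace X (u 0 (k + 1)) (u 0 k) := by
    apply subset_of_not_crossing hcr (x := u 0 k) (y := u 0 (k + 1)) (y' := u 0 (l + 1))
    · constructor
      · show ¬ X.dist _ _ < X.dist _ _
        rw [hu, hu]
        omega
      · show ¬ X.dist _ _ < X.dist _ _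
        rw [hu, hu]
        omega
    · constructor
      · show X.dist _ _ < X.dist _ _
        rw [hu, hu]
        omega
      · show ¬ X.dist _ _ < X.dist _ _
        rw [hu, hu]
        omega
    · constructor
      · show X.dist _ _ < X.dist _ _
        rw [hu, hu]
        omega
      · show X.dist _ _ < X.dist _ _
        rw [hu, hu]
        omega
  refine z2_of_commute hcomm (halfspace X (u 0 (k + 1)) (u 0 k)) ?_ ?_ (u 0 (k + 1)) ?_ ?_ ?_
  · intro v
    have h1 := smul_mem_halfspace hG hc (κ ^ M.factorial) (u 0 (k + 1)) (u 0 k) v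
    rw [hκn, hκn, quarter_halfspace h hu k] at h1
    exact h1
  · intro v hv
    apply hsub
    rw [← hg1, ← hg0 0 (by omega)]
    exact (smul_mem_halfspace hG hc g _ _ v).2 hv
  · show X.dist _ _ < X.dist _ _
    rw [hu, hu]
    omega
  · intro hcon
    have h1 := (smul_mem_halfspace hG hc g _ _ _).2 hcon
    rw [smul_inv_smul, hg1, hg0 0 (by omega)] at h1
    have h2 : X.dist _ _ < X.dist _ _ := h1
    rw [hu, hu] at h2
    omega
  · intro q hq hcon
    have h1 : (κ ^ M.factorial) ^ q • u 0 0 = u 0 0 := by rw [hcon, one_smul]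
    rw [← pow_mul, hκn] at h1
    have h2 := hu (0 + M.factorial * q * Q) 0 0 0
    rw [h1] at h2
    simp only [SimpleGraph.dist_self] at h2
    have h3 : 0 < M.factorial * q * Q := by
      have := Nat.factorial_pos M
      positivity
    omega

end Pool.Agent.Lib.MP_140312_al
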