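import Pool.Agent.Lib.MP_140312_al.Basic

/-!
# Flats, half-flats and columns
-/

open Filter

set_option linter.unusedSimpArgs false

namespace Pool.Agent.Lib.MP_140312_al

variable {V : Type*} {G : Type*} [Group G] [MulAction G V] {X : SimpleGraph V}

/-! ### Squares -/

/-- The fourth vertex of a square is determined by the other three. -/
lemma square_unique (h : IsMedianGraph X) {a b c d d' : V} (hab : X.dist a b = 1)
    (hac : X.dist a c = 1) (hbd : X.dist b d = 1) (hcd : X.dist c d = 1)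
    (hbd' : X.dist b d' = 1) (hcd' : X.dist c d' = 1) (hbc : X.dist b c = 2)
    (had : X.dist a d = 2) (had' : X.dist a d' = 2) : d = d' := by
  rw [SimpleGraph.dist_eq_one_iff_adj] at *
  refine no_K23 h (u := b) (v := c) (a := a) ?_ hab.symm hbd hbd' hac.symm hcd hcd' ?_ ?_
  · rintro rfl
    simp at hbc
  · rintro rfl
    simp at had
  · rintro rfl
    simp at had'

lemma IsFlat.dist_right {f : ℤ → ℤ → V} (hf : IsFlat X f) (i j : ℤ) :
    X.dist (f i j) (f (i + 1) j) = 1 := by
  rw [hf]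
  have : (i - (i + 1)).natAbs = 1 := by
    rw [show i - (i + 1) = -1 by ring]
    rfl
  simp [this]

lemma IsFlat.dist_up {f : ℤ → ℤ → V} (hf : IsFlat X f) (i j : ℤ) :
    X.dist (f i j) (f i (j + 1)) = 1 := by
  rw [hf]
  have : (j - (j + 1)).natAbs = 1 := by
    rw [show j - (j + 1) = -1 by ring]
    rfl
  simp [this]

lemma flat_up (h : IsMedianGraph X) {f f' : ℤ → ℤ → V} (hf : IsFlat X f) (hf' : IsFlat X f')
    {i j : ℤ} (h1 : f i j = f' i j) (h2 : f i (j + 1) = f' i (j + 1))
    (h3 : f (i + 1) j = f' (i + 1) j) : f (i + 1) (j + 1) = f' (i + 1) (j + 1) := by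
  have e1 : (i - (i + 1)).natAbs = 1 := by
    rw [show i - (i + 1) = -1 by ring]; rfl
  have e2 : (j - (j + 1)).natAbs = 1 := by
    rw [show j - (j + 1) = -1 by ring]; rfl
  have e3 : (j + 1 - j).natAbs = 1 := by
    rw [show j + 1 - j = 1 by ring]; rfl
  refine square_unique h (a := f i j) (b := f i (j + 1)) (c := f (i + 1) j) ?_ ?_ ?_ ?_ ?_ ?_
    ?_ ?_ ?_
  · rw [hf]; simp [e2]
  · rw [hf]; simp [e1]
  · rw [hf]; simp [e1]
  · rw [hf]; simp [e2]
  · rw [h2, hf']; simp [e1]
  · rw [h3, hf']; simp [e2]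
  · rw [hf, e1, e3]
  · rw [hf, e1, e2]
  · rw [h1, hf', e1, e2]

lemma flat_down (h : IsMedianGraph X) {f f' : ℤ → ℤ → V} (hf : IsFlat X f) (hf' : IsFlat X f')
    {i j : ℤ} (h1 : f i j = f' i j) (h2 : f i (j - 1) = f' i (j - 1))
    (h3 : f (i + 1) j = f' (i + 1) j) : f (i + 1) (j - 1) = f' (i + 1) (j - 1) := by
  have e1 : (i - (i + 1)).natAbs = 1 := by
    rw [show i - (i + 1) = -1 by ring]; rfl
  have e2 : (j - (j - 1)).natAbs = 1 := by
    rw [show j - (j - 1) = 1 by ring]; rfl
  have e3 : (j - 1 - j).natAbs = 1 := by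
    rw [show j - 1 - j = -1 by ring]; rfl
  refine square_unique h (a := f i j) (b := f i (j - 1)) (c := f (i + 1) j) ?_ ?_ ?_ ?_ ?_ ?_
    ?_ ?_ ?_
  · rw [hf]; simp
  · rw [hf]; simp [e1]
  · rw [hf]; simp [e1]
  · rw [hf]; simp
  · rw [h2, hf']; simp [e1]
  · rw [h3, hf']; simp
  · rw [hf, e1, e3]
  · rw [hf, e1, e2]
  · rw [h1, hf', e1, e2]

/-- If two flats agree on a segment of the line `i` and at one point next to it, they agree on
the parallel segment of the line `i + 1`. -/
lemma flat_column (h : IsMedianGraph X) {f f' : ℤ → ℤ → V} (hf : IsFlat X f)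
    (hf' : IsFlat X f') {i y : ℤ} {N : ℕ}
    (h1 : ∀ j, y - N ≤ j → j ≤ y + N → f i j = f' i j) (h2 : f (i + 1) y = f' (i + 1) y) :
    ∀ j, y - N ≤ j → j ≤ y + N → f (i + 1) j = f' (i + 1) j := by
  have up : ∀ k : ℕ, k ≤ N → f (i + 1) (y + k) = f' (i + 1) (y + k) := by
    intro k
    induction k with
    | zero => intro _; simpa using h2
    | succ k ih =>
      intro hk
      have h3 := flat_up h hf hf' (i := i) (j := y + k) (h1 _ (by omega) (by omega))
        (h1 _ (by omega) (by omega)) (ih (by omega))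
      rw [show (y : ℤ) + (k + 1 : ℕ) = y + k + 1 by push_cast; ring]
      exact h3
  have down : ∀ k : ℕ, k ≤ N → f (i + 1) (y - k) = f' (i + 1) (y - k) := by
    intro k
    induction k with
    | zero => intro _; simpa using h2
    | succ k ih =>
      intro hk
      have h3 := flat_down h hf hf' (i := i) (j := y - k) (h1 _ (by omega) (by omega))
        (h1 _ (by omega) (by omega)) (ih (by omega))
      rw [show (y : ℤ) - (k + 1 : ℕ) = y - k - 1 by push_cast; ring]
      exact h3
  intro j hj1 hj2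
  rcases le_total y j with hj | hj
  · have := up (j - y).toNat (by omega)
    rw [show y + ((j - y).toNat : ℤ) = j by omega] at this
    exact this
  · have := down (y - j).toNat (by omega)
    rw [show y - ((y - j).toNat : ℤ) = j by omega] at this
    exact this

/-- If two flats agree on the line `i` and at one point of the line `i + 1`, they agree on the
line `i + 1`. -/
lemma flat_column_all (h : IsMedianGraph X) {f f' : ℤ → ℤ → V} (hf : IsFlat X f)
    (hf' : IsFlat X f') {i y : ℤ} (h1 : ∀ j, f i j = f' i j)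
    (h2 : f (i + 1) y = f' (i + 1) y) (j : ℤ) : f (i + 1) j = f' (i + 1) j :=
  flat_column h hf hf' (N := (j - y).natAbs) (fun j _ _ => h1 j) h2 j (by omega) (by omega)

/-! ### Translations, the action, limits -/

lemma IsFlat.translate {f : ℤ → ℤ → V} (hf : IsFlat X f) (a b : ℤ) :
    IsFlat X (fun i j => f (i + a) (j + b)) := by
  intro i j i' j'
  rw [hf]
  congr 2 <;> ring

lemma IsFlat.smul (hG : GeometricAction G X) (hc : X.Connected) {f : ℤ → ℤ → V}
    (hf : IsFlat X f) (g : G) : IsFlat X (fun i j => g • f i j) := by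
  intro i j i' j'
  rw [dist_smul hG hc, hf]

variable {𝓕 : Set (ℤ → ℤ → V)}

/-- Families of flats contain the ultralimits of their members. -/
lemma IsFlatFamily.of_limit (h𝓕 : IsFlatFamily G X 𝓕) {u : ℕ → ℤ → ℤ → V} {f : ℤ → ℤ → V}
    (hu : ∀ n, u n ∈ 𝓕) (hlim : ∀ i j, ∀ᶠ n in (𝒰 : Filter ℕ), u n i j = f i j) : f ∈ 𝓕 := by
  apply h𝓕.limit_mem
  intro n
  have h1 : ∀ᶠ m in (𝒰 : Filter ℕ), ∀ a ∈ Finset.Icc (-(n : ℤ)) n ×ˢ Finset.Icc (-(n : ℤ)) n,
      u m a.1 a.2 = f a.1 a.2 := by
    rw [Filter.eventually_all_finset]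
    intro a _
    exact hlim _ _
  obtain ⟨m, hm⟩ := h1.exists
  refine ⟨u m, hu m, fun i j hi hj => ?_⟩
  exact hm (i, j) (by
    simp only [Finset.mem_product, Finset.mem_Icc]
    omega)

/-- The family of all flats. -/
lemma isFlatFamily_all (hG : GeometricAction G X) (hc : X.Connected) :
    IsFlatFamily G X {f | IsFlat X f} where
  isFlat := fun _ hf => hf
  smul_mem := fun g _ hf => IsFlat.smul hG hc hf g
  translate_mem := fun a b _ hf => IsFlat.translate hf a b
  limit_mem := fun f hf i j i' j' => by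
    obtain ⟨f', hf', h1⟩ := hf (i.natAbs + j.natAbs + i'.natAbs + j'.natAbs)
    rw [← h1 i j (by omega) (by omega), ← h1 i' j' (by omega) (by omega)]
    exact hf' i j i' j'

end Pool.Agent.Lib.MP_140312_al
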