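import Pool.Agent.Lib.MP_140312_al.Flats

/-!
# Halfspaces: convexity, Helly property, finite dimension
-/

open Filter

namespace Pool.Agent.Lib.MP_140312_al

variable {V : Type*} {G : Type*} [Group G] [MulAction G V] {X : SimpleGraph V}

lemma mem_halfspace_left (_h : IsMedianGraph X) {x y : V} (hxy : X.Adj x y) :
    x ∈ halfspace X x y := by
  show X.dist x x < X.dist x y
  rw [SimpleGraph.dist_eq_one_iff_adj.2 hxy]
  simp

lemma compl_halfspace (h : IsMedianGraph X) {x y : V} (hxy : X.Adj x y) :
    (halfspace X x y)ᶜ = halfspace X y x := by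
  ext v
  have := dist_adj_ne h hxy v
  simp only [Set.mem_compl_iff, halfspace, Set.mem_ofPred_eq]
  omega

/-- Edges joining the two sides of a hyperplane define the same halfspaces. -/
lemma halfspace_eq_of_crossing_edge (h : IsMedianGraph X) {x y : V} (hxy : X.Adj x y) :
    ∀ (k : ℕ) (u v : V), X.Adj u v → X.dist u x = k → u ∈ halfspace X x y →
      v ∉ halfspace X x y → halfspace X u v = halfspace X x y := by
  have hc := h.connected
  intro k
  induction k with
  | zero =>
    intro u v huv hk hu hv
    rw [hc.dist_eq_zero_iff] at hk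
    subst hk
    have d1 := dist_adj_ne h hxy v
    have h1 : X.dist v y < X.dist v u := by
      have : ¬ X.dist v u < X.dist v y := hv
      omega
    rw [SimpleGraph.dist_eq_one_iff_adj.2 huv.symm] at h1
    have : X.dist v y = 0 := by omega
    rw [hc.dist_eq_zero_iff] at this
    rw [this]
  | succ k ih =>
    intro u v huv hk hu hv
    have hu' : X.dist u x < X.dist u y := hu
    have hv' : ¬ X.dist v x < X.dist v y := hv
    have d1 := dist_adj_ne h hxy u
    have d2 := dist_adj_ne h hxy v
    have t1 : X.dist u y ≤ X.dist u v + X.dist v y := hc.dist_triangle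
    have t2 : X.dist v x ≤ X.dist v u + X.dist u x := hc.dist_triangle
    rw [SimpleGraph.dist_eq_one_iff_adj.2 huv] at t1
    rw [SimpleGraph.dist_eq_one_iff_adj.2 huv.symm] at t2
    have e1 : X.dist u y = k + 2 := by omega
    have e2 : X.dist v y = k + 1 := by omega
    have e3 : X.dist v x = k + 2 := by omega
    -- the neighbour `u'` of `u` closer to `x`
    obtain ⟨u', huu', hu'x⟩ : ∃ u', X.Adj u u' ∧ X.dist u' x = k := by
      obtain ⟨p, hp⟩ := hc.exists_walk_length_eq_dist u x
      rw [hk] at hp
      cases p with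
      | nil => simp at hp
      | cons hadj q =>
        rename_i w
        refine ⟨w, hadj, ?_⟩
        have h1 := SimpleGraph.dist_le q
        rw [SimpleGraph.Walk.length_cons] at hp
        have h2 : X.dist u x ≤ X.dist u w + X.dist w x := hc.dist_triangle
        rw [SimpleGraph.dist_eq_one_iff_adj.2 hadj] at h2
        omega
    have hu'v : u' ≠ v := by
      rintro rfl
      omega
    have e4 : X.dist u' v = 2 := dist_eq_two h hu'v huu' huv
    have e5 : X.dist u' y = k + 1 := by
      have t3 : X.dist u y ≤ X.dist u u' + X.dist u' y := hc.dist_triangle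
      rw [SimpleGraph.dist_eq_one_iff_adj.2 huu'] at t3
      have d3 := dist_adj_ne h hxy u'
      omega
    obtain ⟨v', ⟨m1, m2, m3⟩, _⟩ := h.median u' v y
    have e6 : X.dist v' v = X.dist v v' := SimpleGraph.dist_comm
    have f1 : X.dist u' v' = 1 := by omega
    have f2 : X.dist v v' = 1 := by omega
    have f3 : X.dist v' y = k := by omega
    have f4 : X.dist v' x = k + 1 := by
      have d3 := dist_adj_ne h hxy v'
      have t3 : X.dist v x ≤ X.dist v v' + X.dist v' x := hc.dist_triangle
      omega
    rw [SimpleGraph.dist_eq_one_iff_adj] at f1 f2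
    have h5 : halfspace X u v = halfspace X u' v' := by
      refine halfspace_parallel h huv f2 f1.symm huu'.symm ?_ hu'v.symm
      rintro rfl
      omega
    rw [h5]
    apply ih u' v' f1 hu'x
    · show X.dist u' x < X.dist u' y
      omega
    · show ¬ X.dist v' x < X.dist v' y
      omega

/-- Halfspaces are convex. -/
lemma halfspace_convex (h : IsMedianGraph X) {x y : V} (hxy : X.Adj x y) {a b m : V}
    (ha : a ∈ halfspace X x y) (hb : b ∈ halfspace X x y)
    (hm : X.dist a m + X.dist m b = X.dist a b) : m ∈ halfspace X x y := by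
  have hc := h.connected
  -- induct on the distance from `a` to `m`
  have key : ∀ (k : ℕ) (m : V), X.dist a m = k → X.dist a m + X.dist m b = X.dist a b →
      m ∈ halfspace X x y := by
    intro k
    induction k with
    | zero =>
      intro m hk _
      rw [hc.dist_eq_zero_iff] at hk
      rwa [← hk]
    | succ k ih =>
      intro m hk hm
      -- `m'` is the neighbour of `m` closer to `a`
      obtain ⟨m', hmm', hm'a⟩ : ∃ m', X.Adj m m' ∧ X.dist a m' = k := by
        have hk' : X.dist m a = k + 1 := by rw [SimpleGraph.dist_comm]; exact hk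
        obtain ⟨p, hp⟩ := hc.exists_walk_length_eq_dist m a
        rw [hk'] at hp
        cases p with
        | nil => simp at hp
        | cons hadj q =>
          rename_i w
          refine ⟨w, hadj, ?_⟩
          have h1 := SimpleGraph.dist_le q
          rw [SimpleGraph.Walk.length_cons] at hp
          have h2 : X.dist m a ≤ X.dist m w + X.dist w a := hc.dist_triangle
          rw [SimpleGraph.dist_eq_one_iff_adj.2 hadj] at h2
          rw [SimpleGraph.dist_comm]
          omega
      have hm'b : X.dist m' b = X.dist m b + 1 := by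
        have t1 : X.dist m' b ≤ X.dist m' m + X.dist m b := hc.dist_triangle
        rw [SimpleGraph.dist_eq_one_iff_adj.2 hmm'.symm] at t1
        have t2 : X.dist a b ≤ X.dist a m' + X.dist m' b := hc.dist_triangle
        omega
      have hm' : m' ∈ halfspace X x y := ih m' hm'a (by omega)
      by_contra hcon
      -- the edge `m' m` crosses the hyperplane
      have h1 := halfspace_eq_of_crossing_edge h hxy _ m' m hmm'.symm rfl hm' hcon
      have h2 : b ∈ halfspace X m' m := by rw [h1]; exact hb
      have h3 : X.dist b m' < X.dist b m := h2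
      have e1 : X.dist b m' = X.dist m' b := SimpleGraph.dist_comm
      have e2 : X.dist b m = X.dist m b := SimpleGraph.dist_comm
      omega
  exact key _ m rfl hm

/-- A set of vertices is convex if it contains all vertices on shortest paths between its
members. -/
def GConvex (X : SimpleGraph V) (A : Set V) : Prop :=
  ∀ a ∈ A, ∀ b ∈ A, ∀ m, X.dist a m + X.dist m b = X.dist a b → m ∈ A

lemma gconvex_halfspace (h : IsMedianGraph X) {x y : V} (hxy : X.Adj x y) :
    GConvex X (halfspace X x y) := fun _ ha _ hb _ hm => halfspace_convex h hxy ha hb hm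

/-- Helly property of convex sets in median graphs. -/
lemma helly (h : IsMedianGraph X) : ∀ (n : ℕ) (A : Fin n → Set V), (∀ i, GConvex X (A i)) →
    (∀ i j, (A i ∩ A j).Nonempty) → ∀ (B : Set V), GConvex X B → (∀ i, (A i ∩ B).Nonempty) →
    B.Nonempty → (B ∩ ⋂ i, A i).Nonempty := by
  intro n
  induction n with
  | zero =>
    intro A _ _ B _ _ hB
    simpa using hB
  | succ n ih =>
    intro A hA hAA B hB hAB _
    have hB' : GConvex X (B ∩ A (Fin.last n)) := fun a ha b hb m hm =>
      ⟨hB a ha.1 b hb.1 m hm, hA _ a ha.2 b hb.2 m hm⟩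
    have := ih (fun i => A i.castSucc) (fun i => hA _) (fun i j => hAA _ _)
      (B ∩ A (Fin.last n)) hB' (fun i => ?_) ?_
    · obtain ⟨v, ⟨hv1, hv2⟩, hv3⟩ := this
      refine ⟨v, hv1, ?_⟩
      rw [Set.mem_iInter] at hv3 ⊢
      intro i
      refine Fin.lastCases hv2 (fun j => hv3 j) i
    · obtain ⟨p, hp1, hp2⟩ := hAB i.castSucc
      obtain ⟨q, hq1, hq2⟩ := hAB (Fin.last n)
      obtain ⟨r, hr1, hr2⟩ := hAA i.castSucc (Fin.last n)
      obtain ⟨m, ⟨m1, m2, m3⟩, _⟩ := h.median p q r
      exact ⟨m, hA _ p hp1 r hr1 m m3, hB p hp2 q hq2 m m1, hA _ q hq1 r hr2 m m2⟩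
    · obtain ⟨q, hq1, hq2⟩ := hAB (Fin.last n)
      exact ⟨q, hq2, hq1⟩

/-- Pairwise crossing hyperplanes: all sign patterns occur. -/
lemma exists_sign (h : IsMedianGraph X) {n : ℕ} (A : Fin n → Set V)
    (hA : ∀ i, GConvex X (A i)) (hA' : ∀ i, GConvex X (A i)ᶜ)
    (hne : ∀ i, (A i).Nonempty ∧ (A i)ᶜ.Nonempty)
    (hcr : ∀ i j, i ≠ j → Crossing (A i) (A j)) (s : Fin n → Prop) :
    ∃ v : V, ∀ i, (v ∈ A i ↔ s i) := by
  classical
  have hV : (Set.univ : Set V).Nonempty := by
    obtain ⟨v⟩ := h.connected.nonempty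
    exact ⟨v, trivial⟩
  have hBV : GConvex X (Set.univ : Set V) := fun _ _ _ _ _ _ => trivial
  let B : Fin n → Set V := fun i => if s i then A i else (A i)ᶜ
  have hB : ∀ i, GConvex X (B i) := by
    intro i
    by_cases hs : s i
    · simp only [B, hs, if_true]; exact hA i
    · simp only [B, hs, if_false]; exact hA' i
  have hne' : ∀ i, (B i).Nonempty := by
    intro i
    by_cases hs : s i
    · simp only [B, hs, if_true]; exact (hne i).1
    · simp only [B, hs, if_false]; exact (hne i).2
  have hBB : ∀ i j, (B i ∩ B j).Nonempty := by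
    intro i j
    by_cases hij : i = j
    · subst hij
      rw [Set.inter_self]
      exact hne' i
    · obtain ⟨c1, c2, c3, c4⟩ := hcr i j hij
      by_cases hs : s i <;> by_cases hs' : s j <;> simp only [B, hs, hs', if_true, if_false] <;>
        assumption
  obtain ⟨v, _, hv⟩ := helly h n B hB hBB Set.univ hBV
    (fun i => by rw [Set.inter_univ]; exact hne' i) hV
  rw [Set.mem_iInter] at hv
  refine ⟨v, fun i => ?_⟩
  have := hv i
  by_cases hs : s i
  · simp only [B, hs, if_true] at this
    simp [this, hs]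
  · simp only [B, hs, if_false] at this
    simp only [hs, iff_false]
    exact this

/-- `n` pairwise crossing hyperplanes force a vertex of degree at least `n`. -/
lemma exists_degree (h : IsMedianGraph X) {n : ℕ} (x y : Fin n → V)
    (hxy : ∀ k, X.Adj (x k) (y k))
    (hcr : ∀ k l, k ≠ l → Crossing (halfspace X (x k) (y k)) (halfspace X (x l) (y l))) :
    ∃ (v : V) (w : Fin n → V), Function.Injective w ∧ ∀ k, X.Adj v (w k) := by
  classical
  have hc := h.connected
  set A : Fin n → Set V := fun k => halfspace X (x k) (y k) with hAdef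
  have hA : ∀ k, GConvex X (A k) := fun k => gconvex_halfspace h (hxy k)
  have hA' : ∀ k, GConvex X (A k)ᶜ := fun k => by
    rw [hAdef]
    simp only
    rw [compl_halfspace h (hxy k)]
    exact gconvex_halfspace h (hxy k).symm
  have hne : ∀ k, (A k).Nonempty ∧ (A k)ᶜ.Nonempty := fun k =>
    ⟨⟨x k, mem_halfspace_left h (hxy k)⟩, ⟨y k, by
      rw [hAdef]
      simp only
      rw [compl_halfspace h (hxy k)]
      exact mem_halfspace_left h (hxy k).symm⟩⟩
  have hsign := exists_sign h A hA hA' hne hcr
  -- a pair `(p, q)` at minimal distance with `p` in no `A k` and `q` in all `A k`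
  let P : ℕ → Prop := fun d => ∃ p q : V, (∀ k, p ∉ A k) ∧ (∀ k, q ∈ A k) ∧ X.dist p q = d
  have hP : ∃ d, P d := by
    obtain ⟨p, hp⟩ := hsign (fun _ => False)
    obtain ⟨q, hq⟩ := hsign (fun _ => True)
    exact ⟨_, p, q, fun k => by simpa using hp k, fun k => by simpa using hq k, rfl⟩
  obtain ⟨p, q, hp, hq, hd⟩ := Nat.find_spec hP
  have hmin : ∀ p', (∀ k, p' ∉ A k) → X.dist p q ≤ X.dist p' q := by
    intro p' hp'
    rw [hd]
    exact Nat.find_min' hP ⟨p', q, hp', hq, rfl⟩
  have hw : ∀ k, ∃ w, X.Adj p w ∧ w ∈ A k ∧ ∀ l, l ≠ k → w ∉ A l := by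
    intro k
    obtain ⟨z, hz⟩ := hsign (fun l => l = k)
    obtain ⟨m, ⟨m1, m2, m3⟩, _⟩ := h.median p q z
    have hmk : m ∈ A k := hA k q (hq k) z ((hz k).2 rfl) m m2
    have hml : ∀ l, l ≠ k → m ∉ A l := fun l hl =>
      hA' l p (hp l) z (fun hzl => hl ((hz l).1 hzl)) m m3
    have hpm : p ≠ m := by
      rintro rfl
      exact hp k hmk
    -- the first vertex on a shortest path from `p` to `m`
    obtain ⟨w, hpw, hwm⟩ : ∃ w, X.Adj p w ∧ X.dist w m + 1 = X.dist p m := by
      obtain ⟨r, hr⟩ := hc.exists_walk_length_eq_dist p m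
      cases r with
      | nil => exact absurd rfl hpm
      | cons hadj r' =>
        rename_i w
        refine ⟨w, hadj, ?_⟩
        have h1 := SimpleGraph.dist_le r'
        rw [SimpleGraph.Walk.length_cons] at hr
        have h2 : X.dist p m ≤ X.dist p w + X.dist w m := hc.dist_triangle
        rw [SimpleGraph.dist_eq_one_iff_adj.2 hadj] at h2
        omega
    have hpw1 : X.dist p w = 1 := SimpleGraph.dist_eq_one_iff_adj.2 hpw
    have hwl : ∀ l, l ≠ k → w ∉ A l := fun l hl =>
      hA' l p (hp l) m (hml l hl) w (by omega)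
    refine ⟨w, hpw, ?_, hwl⟩
    by_contra hwk
    have hall : ∀ l, w ∉ A l := by
      intro l
      by_cases hl : l = k
      · rw [hl]; exact hwk
      · exact hwl l hl
    have h1 := hmin w hall
    have h2 : X.dist w q ≤ X.dist w m + X.dist m q := hc.dist_triangle
    omega
  choose w hw1 hw2 hw3 using hw
  refine ⟨p, w, ?_, hw1⟩
  intro k l hkl
  by_contra hne
  exact hw3 l k hne (hkl ▸ hw2 k)

/-- A geometric action forces finite dimension. -/
lemma exists_dimLE (h : IsMedianGraph X) (hG : GeometricAction G X) : ∃ d, DimLE X d := by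
  obtain ⟨D, hD, hcov⟩ := hG.cocompact
  obtain ⟨M, hM⟩ : ∃ M : ℕ, ∀ x ∈ D, {y | X.Adj x y}.ncard ≤ M := by
    obtain ⟨M, hM⟩ := (hD.image (fun x => {y | X.Adj x y}.ncard)).bddAbove
    exact ⟨M, fun x hx => hM ⟨x, hx, rfl⟩⟩
  refine ⟨M, fun x y hxy => ?_⟩
  by_contra hcon
  push Not at hcon
  obtain ⟨v, w, hw, hvw⟩ := exists_degree h x y hxy hcon
  obtain ⟨g, hg⟩ := hcov v
  have h1 : Set.range (fun k => g • w k) ⊆ {y | X.Adj (g • v) y} := by
    rintro _ ⟨k, rfl⟩
    exact (hG.adj_iff g v (w k)).2 (hvw k)
  have h2 := Set.ncard_le_ncard h1 (hG.locallyFinite _)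
  have h3 : (Set.range (fun k => g • w k)).ncard = M + 1 := by
    have hinj : Function.Injective (fun k => g • w k) := fun a b hab =>
      hw (MulAction.injective g hab)
    rw [← Set.image_univ, Set.ncard_image_of_injective _ hinj, Set.ncard_univ]
    simp
  have h4 := hM _ hg
  omega

end Pool.Agent.Lib.MP_140312_al
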