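import Pool.Agent.Lib.MP_140312_al.Halfspaces

/-!
# A cocompact median graph without flats is hyperbolic
-/

open Filter

namespace Pool.Agent.Lib.MP_140312_al

variable {V : Type*} {G : Type*} [Group G] [MulAction G V] {X : SimpleGraph V}

lemma exists_step (hc : X.Connected) {a b : V} {k : ℕ} (hk : X.dist a b = k + 1) :
    ∃ a', X.Adj a a' ∧ X.dist a' b = k := by
  obtain ⟨p, hp⟩ := hc.exists_walk_length_eq_dist a b
  rw [hk] at hp
  cases p with
  | nil => simp at hp
  | cons hadj q =>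
    rename_i w
    refine ⟨w, hadj, ?_⟩
    have h1 := SimpleGraph.dist_le q
    rw [SimpleGraph.Walk.length_cons] at hp
    have h2 : X.dist a b ≤ X.dist a w + X.dist w b := hc.dist_triangle
    rw [SimpleGraph.dist_eq_one_iff_adj.2 hadj] at h2
    omega

/-- `m` is a median of `a`, `b`, `c`. -/
def IsMed (X : SimpleGraph V) (a b c m : V) : Prop :=
  X.dist a m + X.dist m b = X.dist a b ∧
    X.dist b m + X.dist m c = X.dist b c ∧ X.dist a m + X.dist m c = X.dist a c

lemma IsMed.unique (h : IsMedianGraph X) {a b c m m' : V} (hm : IsMed X a b c m)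
    (hm' : IsMed X a b c m') : m = m' := by
  obtain ⟨w, _, hw⟩ := h.median a b c
  rw [hw m hm, hw m' hm']

/-- Medians are 1-Lipschitz. -/
lemma med_lipschitz (h : IsMedianGraph X) {a a' b c m m' : V} (haa' : X.Adj a a')
    (hm : IsMed X a b c m) (hm' : IsMed X a' b c m') : X.dist m m' ≤ 1 := by
  have hc := h.connected
  by_contra hcon
  obtain ⟨k, hk⟩ : ∃ k, X.dist m m' = (k + 1) + 1 := ⟨X.dist m m' - 2, by omega⟩
  obtain ⟨m₁, hm₁, hk₁⟩ := exists_step hc hk
  obtain ⟨m₂, hm₂, hk₂⟩ := exists_step hc hk₁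
  have key : ∀ {x y : V}, X.Adj x y → m ∈ halfspace X x y → m' ∉ halfspace X x y →
      halfspace X a a' = halfspace X x y := by
    intro x y hxy h1 h2
    have hcv : ∀ {a b m : V}, a ∈ halfspace X x y → b ∈ halfspace X x y →
        X.dist a m + X.dist m b = X.dist a b → m ∈ halfspace X x y :=
      fun h3 h4 h5 => halfspace_convex h hxy h3 h4 h5
    have hcv' : ∀ {a b m : V}, a ∉ halfspace X x y → b ∉ halfspace X x y →
        X.dist a m + X.dist m b = X.dist a b → m ∉ halfspace X x y := by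
      intro a b m h3 h4 h5
      have e : ∀ v, v ∉ halfspace X x y ↔ v ∈ halfspace X y x := by
        intro v
        rw [← compl_halfspace h hxy]
        rfl
      rw [e] at h3 h4 ⊢
      exact halfspace_convex h hxy.symm h3 h4 h5
    obtain ⟨q1, q2, q3⟩ := hm
    obtain ⟨r1, r2, r3⟩ := hm'
    apply halfspace_eq_of_crossing_edge h hxy _ _ _ haa' rfl
    · by_contra ha
      have hb : b ∈ halfspace X x y := by
        by_contra hb
        exact hcv' ha hb q1 h1
      have hc' : c ∈ halfspace X x y := by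
        by_contra hc'
        exact hcv' ha hc' q3 h1
      exact h2 (hcv hb hc' r2)
    · intro ha
      have hb : b ∉ halfspace X x y := fun hb => h2 (hcv ha hb r1)
      have hc' : c ∉ halfspace X x y := fun hc' => h2 (hcv ha hc' r3)
      exact hcv' hb hc' q2 h1
  have t1 : X.dist m m₁ = 1 := SimpleGraph.dist_eq_one_iff_adj.2 hm₁
  have t2 : X.dist m m' ≤ X.dist m m₂ + X.dist m₂ m' := hc.dist_triangle
  have e1 : X.dist m' m = X.dist m m' := SimpleGraph.dist_comm
  have e2 : X.dist m' m₁ = X.dist m₁ m' := SimpleGraph.dist_comm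
  have e3 : X.dist m' m₂ = X.dist m₂ m' := SimpleGraph.dist_comm
  have h0 := key hm₁ (mem_halfspace_left h hm₁) (by
    show ¬ X.dist _ _ < X.dist _ _
    omega)
  have h1 := key hm₂ (by
    show X.dist _ _ < X.dist _ _
    omega) (by
    show ¬ X.dist _ _ < X.dist _ _
    omega)
  have h2 : m₁ ∈ halfspace X m m₁ := by
    rw [← h0, h1]
    exact mem_halfspace_left h hm₂
  have h3 : X.dist m₁ m < X.dist m₁ m₁ := h2
  simp at h3

/-- Geodesics. -/
lemma exists_geodesic (hc : X.Connected) (a b : V) :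
    ∃ u : ℕ → V, u 0 = a ∧ u (X.dist a b) = b ∧ ∀ i, i < X.dist a b → X.Adj (u i) (u (i + 1)) := by
  generalize hk : X.dist a b = k
  induction k generalizing a with
  | zero =>
    refine ⟨fun _ => a, rfl, ?_, fun i hi => absurd hi (Nat.not_lt_zero _)⟩
    exact hc.dist_eq_zero_iff.1 hk
  | succ k ih =>
    obtain ⟨a', haa', hk'⟩ := exists_step hc hk
    obtain ⟨u, hu0, huk, hu⟩ := ih a' hk'
    refine ⟨fun i => if i = 0 then a else u (i - 1), by simp, by simpa using huk, ?_⟩
    intro i hi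
    rcases i with _ | i
    · simpa [hu0] using haa'
    · simpa using hu i (by omega)

/-- A metric rectangle is filled by an isometric grid. -/
lemma exists_grid (h : IsMedianGraph X) {p P Q q : V} {α β : ℕ} (h1 : X.dist p P = α)
    (h2 : X.dist p Q = β) (h3 : X.dist P q = β) (h4 : X.dist Q q = α)
    (h5 : X.dist p q = α + β) (h6 : X.dist P Q = α + β) :
    ∃ g : ℕ → ℕ → V, ∀ i j i' j', i ≤ α → j ≤ β → i' ≤ α → j' ≤ β →
      X.dist (g i j) (g i' j') = ((i : ℤ) - i').natAbs + ((j : ℤ) - j').natAbs := by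
  have hc := h.connected
  obtain ⟨u, hu0, hu1, hu⟩ := exists_geodesic hc p P
  obtain ⟨v, hv0, hv1, hv⟩ := exists_geodesic hc p Q
  rw [h1] at hu1 hu
  rw [h2] at hv1 hv
  have hmed : ∀ i j, ∃ m, IsMed X (u i) (v j) q m := fun i j =>
    (h.median (u i) (v j) q).exists
  choose g hg using hmed
  have hx : ∀ i j, i < α → X.dist (g i j) (g (i + 1) j) ≤ 1 := fun i j hi =>
    med_lipschitz h (hu i hi) (hg i j) (hg (i + 1) j)
  have hsw : ∀ {a b c m : V}, IsMed X a b c m → IsMed X b a c m := by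
    intro a b c m hm
    obtain ⟨q1, q2, q3⟩ := hm
    refine ⟨?_, q3, q2⟩
    rw [X.dist_comm (u := b) (v := m), X.dist_comm (u := m) (v := a), X.dist_comm (u := b) (v := a)]
    omega
  have hy : ∀ i j, j < β → X.dist (g i j) (g i (j + 1)) ≤ 1 := fun i j hj =>
    med_lipschitz h (hv j hj) (hsw (hg i j)) (hsw (hg i (j + 1)))
  have ee : ∀ a b : V, X.dist a b = X.dist b a := fun a b => X.dist_comm
  have c00 : g 0 0 = p := by
    apply (hg 0 0).unique h
    rw [hu0, hv0]
    refine ⟨?_, ?_, ?_⟩ <;> simp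
  have cab : g α β = q := by
    apply (hg α β).unique h
    rw [hu1, hv1]
    refine ⟨?_, ?_, ?_⟩
    · rw [ee q Q]; omega
    · simp
    · simp
  have ca0 : g α 0 = P := by
    apply (hg α 0).unique h
    rw [hu1, hv0]
    refine ⟨?_, ?_, ?_⟩
    · rw [ee P p]; simp
    · omega
    · simp
  have c0b : g 0 β = Q := by
    apply (hg 0 β).unique h
    rw [hu0, hv1]
    refine ⟨?_, ?_, ?_⟩
    · simp
    · simp
    · omega
  have hX : ∀ (t i j : ℕ), i + t ≤ α → X.dist (g i j) (g (i + t) j) ≤ t := by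
    intro t
    induction t with
    | zero => intro i j _; simp
    | succ t ih =>
      intro i j hi
      have := ih i j (by omega)
      have h7 := hx (i + t) j (by omega)
      have h8 : X.dist (g i j) (g (i + t + 1) j) ≤
        X.dist (g i j) (g (i + t) j) + X.dist (g (i + t) j) (g (i + t + 1) j) := hc.dist_triangle
      rw [← add_assoc]
      omega
  have hY : ∀ (t i j : ℕ), j + t ≤ β → X.dist (g i j) (g i (j + t)) ≤ t := by
    intro t
    induction t with
    | zero => intro i j _; simp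
    | succ t ih =>
      intro i j hj
      have := ih i j (by omega)
      have h7 := hy i (j + t) (by omega)
      have h8 : X.dist (g i j) (g i (j + t + 1)) ≤
        X.dist (g i j) (g i (j + t)) + X.dist (g i (j + t)) (g i (j + t + 1)) := hc.dist_triangle
      rw [← add_assoc]
      omega
  have hX' : ∀ i i' j, i ≤ i' → i' ≤ α → X.dist (g i j) (g i' j) ≤ i' - i := by
    intro i i' j h1 h2
    have := hX (i' - i) i j (by omega)
    rwa [show i + (i' - i) = i' by omega] at this
  have hY' : ∀ i j j', j ≤ j' → j' ≤ β → X.dist (g i j) (g i j') ≤ j' - j := by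
    intro i j j' h1 h2
    have := hY (j' - j) i j (by omega)
    rwa [show j + (j' - j) = j' by omega] at this
  have tri : ∀ a b c : V, X.dist a c ≤ X.dist a b + X.dist b c := fun a b c => hc.dist_triangle
  -- increasing pairs
  have inc : ∀ i j i' j', i ≤ i' → j ≤ j' → i' ≤ α → j' ≤ β →
      X.dist (g i j) (g i' j') = (i' - i) + (j' - j) := by
    intro i j i' j' a1 a2 a3 a4
    have b1 := hX' 0 i j (by omega) (by omega)
    have b2 := hY' 0 0 j (by omega) (by omega)
    have b3 := hX' i i' j a1 a3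
    have b4 := hY' i' j j' a2 a4
    have b5 := hX' i' α j' a3 le_rfl
    have b6 := hY' α j' β a4 le_rfl
    have t1 := tri (g 0 0) (g 0 j) (g i j)
    have t2 := tri (g i j) (g i' j) (g i' j')
    have t3 := tri (g i' j') (g α j') (g α β)
    have t4 := tri (g 0 0) (g i j) (g α β)
    have t5 := tri (g i j) (g i' j') (g α β)
    rw [c00, cab] at *
    omega
  have dec : ∀ i j i' j', i ≤ i' → j' ≤ j → i' ≤ α → j ≤ β →
      X.dist (g i j) (g i' j') = (i' - i) + (j - j') := by
    intro i j i' j' a1 a2 a3 a4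
    have b1 := hX' 0 i j (by omega) (by omega)
    have b2 := hY' 0 j β a4 le_rfl
    have b3 := hX' i i' j a1 a3
    have b4 := hY' i' j' j a2 a4
    have b5 := hX' i' α j' a3 le_rfl
    have b6 := hY' α 0 j' (by omega) (by omega)
    have t1 := tri (g 0 β) (g 0 j) (g i j)
    have t2 := tri (g i j) (g i' j) (g i' j')
    have t3 := tri (g i' j') (g α j') (g α 0)
    have t4 := tri (g 0 β) (g i j) (g α 0)
    have t5 := tri (g i j) (g i' j') (g α 0)
    rw [ee (g 0 β) (g 0 j)] at t1
    rw [ee (g i' j) (g i' j')] at t2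
    rw [ee (g α j') (g α 0)] at t3
    rw [c0b, ca0] at *
    have := ee P Q
    omega
  refine ⟨g, fun i j i' j' a1 a2 a3 a4 => ?_⟩
  rcases le_total i i' with b1 | b1 <;> rcases le_total j j' with b2 | b2
  · rw [inc i j i' j' b1 b2 a3 a4]; omega
  · rw [dec i j i' j' b1 b2 a3 a2]; omega
  · rw [ee, dec i' j' i j b1 b2 a1 a4]; omega
  · rw [ee, inc i' j' i j b1 b2 a1 a2]; omega

/-- A failure of the four-point condition gives a large metric rectangle. -/
lemma exists_rectangle (h : IsMedianGraph X) (x y z w : V) (n : ℕ)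
    (hn : max (X.dist x z + X.dist y w) (X.dist x w + X.dist y z) + 2 * n ≤
      X.dist x y + X.dist z w) :
    ∃ (p P Q q : V) (α β : ℕ), n ≤ α ∧ n ≤ β ∧ X.dist p P = α ∧ X.dist p Q = β ∧
      X.dist P q = β ∧ X.dist Q q = α ∧ X.dist p q = α + β ∧ X.dist P Q = α + β := by
  have hc := h.connected
  have ee : ∀ a b : V, X.dist a b = X.dist b a := fun a b => X.dist_comm
  have tri : ∀ a b c : V, X.dist a c ≤ X.dist a b + X.dist b c := fun a b c => hc.dist_triangle
  obtain ⟨P, ⟨P1, P2, P3⟩, _⟩ := h.median x y z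
  obtain ⟨Q, ⟨Q1, Q2, Q3⟩, _⟩ := h.median x y w
  obtain ⟨p, ⟨p1, p2, p3⟩, _⟩ := h.median x P Q
  obtain ⟨q, ⟨q1, q2, q3⟩, _⟩ := h.median y P Q
  have t1 := tri p P q
  have t2 := tri p Q q
  have t3 := tri x p y
  have t4 := tri p q y
  have t5 := tri z P w
  have t6 := tri P Q w
  have s1 := ee y P
  have s2 := ee y Q
  have s3 := ee P p
  have s4 := ee P q
  have s5 := ee Q p
  have s6 := ee Q q
  have s7 := ee y q
  have s8 := ee z P
  have hn1 : X.dist x z + X.dist y w + 2 * n ≤ X.dist x y + X.dist z w :=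
    le_trans (Nat.add_le_add_right (le_max_left _ _) _) hn
  have hn2 : X.dist x w + X.dist y z + 2 * n ≤ X.dist x y + X.dist z w :=
    le_trans (Nat.add_le_add_right (le_max_right _ _) _) hn
  refine ⟨p, P, Q, q, X.dist p P, X.dist p Q, ?_, ?_, rfl, rfl, ?_, ?_, ?_, ?_⟩
  all_goals omega

/-- If there are no flats, then the graph is hyperbolic. -/
theorem isHyperbolic_of_no_flat (h : IsMedianGraph X) (hG : GeometricAction G X)
    (hno : ¬ ∃ f, IsFlat X f) : IsHyperbolic X := by
  have hc := h.connected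
  by_contra hhyp
  apply hno
  have hrect : ∀ n : ℕ, ∃ g : ℕ → ℕ → V, ∀ i j i' j', i ≤ 2 * n → j ≤ 2 * n → i' ≤ 2 * n →
      j' ≤ 2 * n → X.dist (g i j) (g i' j') = ((i : ℤ) - i').natAbs + ((j : ℤ) - j').natAbs := by
    intro n
    have h1 : ¬ ∀ x y z w : V, X.dist x y + X.dist z w ≤
        max (X.dist x z + X.dist y w) (X.dist x w + X.dist y z) + 2 * (2 * n) :=
      fun hcon => hhyp ⟨2 * (2 * n), hcon⟩
    push Not at h1
    obtain ⟨x, y, z, w, hxyzw⟩ := h1
    obtain ⟨p, P, Q, q, α, β, a1, a2, a3, a4, a5, a6, a7, a8⟩ :=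
      exists_rectangle h x y z w (2 * n) hxyzw.le
    obtain ⟨g, hg⟩ := exists_grid h a3 a4 a5 a6 a7 a8
    exact ⟨g, fun i j i' j' b1 b2 b3 b4 => hg i j i' j' (b1.trans a1) (b2.trans a2)
      (b3.trans a1) (b4.trans a2)⟩
  choose g hg using hrect
  obtain ⟨D, hD, hcov⟩ := hG.cocompact
  choose t ht using fun n => hcov (g n n n)
  let u : ℕ → ℤ × ℤ → V := fun n a => t n • g n (a.1 + n).toNat (a.2 + n).toNat
  have hu : ∀ n (a b : ℤ × ℤ), a.1.natAbs ≤ n → a.2.natAbs ≤ n → b.1.natAbs ≤ n →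
      b.2.natAbs ≤ n → X.dist (u n a) (u n b) = (a.1 - b.1).natAbs + (a.2 - b.2).natAbs := by
    intro n a b h1 h2 h3 h4
    show X.dist (t n • _) (t n • _) = _
    rw [dist_smul hG hc, hg n _ _ _ _ (by omega) (by omega) (by omega) (by omega)]
    omega
  have hK : ∀ a : ℤ × ℤ, (⋃ x ∈ D, {y | X.dist x y ≤ a.1.natAbs + a.2.natAbs}).Finite :=
    fun a => hD.biUnion fun x _ => ball_finite hG hc x _
  obtain ⟨f, hf⟩ := ultralimit u (fun a => ⟨_, hK a, by
    filter_upwards [eventually_ge (a.1.natAbs + a.2.natAbs)] with n hn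
    simp only [Set.mem_iUnion]
    refine ⟨u n (0, 0), ?_, ?_⟩
    · show t n • g n (0 + (n : ℤ)).toNat (0 + (n : ℤ)).toNat ∈ D
      rw [show (0 + (n : ℤ)).toNat = n by omega]
      exact ht n
    · show X.dist _ _ ≤ _
      rw [hu n _ _ (by simp) (by simp) (by omega) (by omega)]
      simp⟩)
  refine ⟨fun i j => f (i, j), fun i j i' j' => ?_⟩
  obtain ⟨n, h1, h2, h3⟩ := ((hf (i, j)).and ((hf (i', j')).and
    (eventually_ge (i.natAbs + j.natAbs + i'.natAbs + j'.natAbs)))).exists
  show X.dist (f (i, j)) (f (i', j')) = _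
  rw [← h1, ← h2, hu n _ _ (by simp only; omega) (by simp only; omega) (by simp only; omega)
    (by simp only; omega)]

end Pool.Agent.Lib.MP_140312_al
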