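import Pool.Agent.Lib.MP_140312_al.CaseOne
import Pool.Agent.Lib.MP_140312_al.CaseTwo
import Pool.Agent.Lib.MP_140312_al.Hyperbolic

/-!
# Main theorem
-/

open Filter

namespace Pool.Agent.Lib.MP_140312_al

variable {V : Type*} {G : Type*} [Group G] [MulAction G V] {X : SimpleGraph V}
  {𝓕 : Set (ℤ → ℤ → V)}

/-- If the first column of a member of the family accumulates on a periodic line, then the family
has a member whose first column is periodic. -/
lemma exists_periodic_column (h : IsMedianGraph X) (hG : GeometricAction G X)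
    (h𝓕 : IsFlatFamily G X 𝓕) {f : ℤ → ℤ → V} (hf : f ∈ 𝓕)
    (hacc : AccumulatesPeriodic G (f 0)) : ∃ f' ∈ 𝓕, IsPeriodicLine G (f' 0) := by
  have hc := h.connected
  have hfl := h𝓕.isFlat _ hf
  obtain ⟨L', hL', hw⟩ := hacc
  choose g q hgq using hw
  have hu0 : ∀ n, g n • f 0 (0 + q n) = L' 0 := fun n => hgq n 0 (by simp)
  obtain ⟨F, hF⟩ := ultralimit (fun n (a : ℤ × ℤ) => g n • f (a.1 + 0) (a.2 + q n))
    (fun a => ⟨_, ball_finite hG hc (L' 0) (a.1.natAbs + a.2.natAbs),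
      Eventually.of_forall fun n => by
        show X.dist _ _ ≤ _
        rw [← hu0 n, dist_smul hG hc, hfl]
        omega⟩)
  refine ⟨fun i j => F (i, j), h𝓕.of_limit
    (fun n => h𝓕.smul_mem (g n) _ (h𝓕.translate_mem 0 (q n) _ hf)) (fun i j => hF (i, j)), ?_⟩
  have : (fun j => F (0, j)) = L' := by
    funext j
    obtain ⟨n, h1, h2⟩ := ((hF (0, j)).and (eventually_ge j.natAbs)).exists
    rw [← h1]
    exact hgq n j h2
  rw [show (fun i j => F (i, j)) 0 = fun j => F (0, j) from rfl, this]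
  exact hL'

/-- If a nonempty closed invariant family of flats branches only along lines accumulating on
periodic lines, and only along finitely many classes of periodic lines, then the group contains
`ℤ × ℤ`. -/
theorem exists_z2 (h : IsMedianGraph X) (hG : GeometricAction G X)
    (h𝓕 : IsFlatFamily G X 𝓕) (hne : 𝓕.Nonempty) (k : ℕ)
    (hacc : ∀ L : ℤ → V, IsBranchLine 𝓕 k L → AccumulatesPeriodic G L)
    (hfin : ∃ S : Set (ℤ → V), S.Finite ∧ ∀ L : ℤ → V, IsBranchLine 𝓕 k L →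
      IsPeriodicLine G L → ∃ L' ∈ S, LineEquiv G L L') :
    ∃ φ : Multiplicative (ℤ × ℤ) →* G, Function.Injective φ := by
  by_cases hno : ∀ f ∈ 𝓕, ∀ f' ∈ 𝓕, (∀ i j, i ≤ 0 → f i j = f' i j) → f 1 0 = f' 1 0
  · exact case_one h hG h𝓕 hno hne
  push Not at hno
  obtain ⟨f, hf, f', hf', hag, hne'⟩ := hno
  obtain ⟨F, hF, hF0⟩ := exists_periodic_column h hG h𝓕 hf
    (hacc (f 0) ⟨f, hf, f', hf', fun j => rfl, fun i j _ hi => hag i j hi, hne'⟩)
  exact case_two h hG h𝓕 k hfin hF hF0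

/-- The same for hyperbolicity. -/
theorem isHyperbolic_of_branchLines (h : IsMedianGraph X) (hG : GeometricAction G X)
    (h𝓕 : IsFlatFamily G X 𝓕) (hne : (∃ f, IsFlat X f) → 𝓕.Nonempty) (k : ℕ)
    (hacc : ∀ L : ℤ → V, IsBranchLine 𝓕 k L → AccumulatesPeriodic G L)
    (hfin : ∃ S : Set (ℤ → V), S.Finite ∧ ∀ L : ℤ → V, IsBranchLine 𝓕 k L →
      IsPeriodicLine G L → ∃ L' ∈ S, LineEquiv G L L')
    (hZ : ¬ ∃ φ : Multiplicative (ℤ × ℤ) →* G, Function.Injective φ) : IsHyperbolic X :=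
  isHyperbolic_of_no_flat h hG fun hf => hZ (exists_z2 h hG h𝓕 (hne hf) k hacc hfin)

end Pool.Agent.Lib.MP_140312_al
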