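import Pool.Agent.Lib.MP_140312_al.Final

/-!
# Periodic lines and the columns of flats with a periodic column
-/

open Filter

namespace Pool.Agent.Lib.MP_140312_al

variable {V : Type*} {G : Type*} [Group G] [MulAction G V] {X : SimpleGraph V}

lemma IsPeriodicLine.exists_pos {L : ℤ → V} (hL : IsPeriodicLine G L) :
    ∃ (g : G) (p : ℕ), 0 < p ∧ ∀ j, g • L j = L (j + p) := by
  obtain ⟨g, p, hp, hg⟩ := hL
  rcases lt_or_gt_of_ne hp with h | h
  · refine ⟨g⁻¹, p.natAbs, by omega, fun j => ?_⟩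
    rw [inv_smul_eq_iff, hg]
    congr 1
    omega
  · refine ⟨g, p.natAbs, by omega, fun j => ?_⟩
    rw [hg]
    congr 1
    omega

lemma pow_translate {L : ℤ → V} {g : G} {p : ℕ} (hg : ∀ j, g • L j = L (j + p)) (n : ℕ)
    (j : ℤ) : g ^ n • L j = L (j + n * p) := by
  induction n generalizing j with
  | zero => simp
  | succ n ih =>
    rw [pow_succ, mul_smul, hg, ih]
    congr 1
    push_cast
    ring

lemma pow_translate_inv {L : ℤ → V} {g : G} {p : ℕ} (hg : ∀ j, g • L j = L (j + p)) (n : ℕ)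
    (j : ℤ) : (g ^ n)⁻¹ • L j = L (j - n * p) := by
  rw [inv_smul_eq_iff, pow_translate hg]
  congr 1
  ring

lemma LineEquiv.refl (L : ℤ → V) : LineEquiv G L L := ⟨1, 0, fun j => by simp⟩

lemma LineEquiv.symm {L L' : ℤ → V} (h : LineEquiv G L L') : LineEquiv G L' L := by
  obtain ⟨g, q, h⟩ := h
  refine ⟨g⁻¹, -q, fun j => ?_⟩
  rw [inv_smul_eq_iff, h]
  congr 1
  ring

lemma LineEquiv.trans {L L' L'' : ℤ → V} (h : LineEquiv G L L') (h' : LineEquiv G L' L'') :
    LineEquiv G L L'' := by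
  obtain ⟨g, q, h⟩ := h
  obtain ⟨g', q', h'⟩ := h'
  refine ⟨g' * g, q + q', fun j => ?_⟩
  rw [mul_smul, h, h']
  congr 1
  ring

/-- All columns of the right half of a flat with a periodic boundary are periodic. -/
lemma per_columns (h : IsMedianGraph X) (hG : GeometricAction G X)
    {f : ℤ → ℤ → V} (hf : IsFlat X f) {g : G} {p : ℕ}
    (hg : ∀ j, g • f 0 j = f 0 (j + p)) :
    ∀ i : ℕ, ∃ n : ℕ, 0 < n ∧ ∀ i' : ℕ, i' ≤ i → ∀ j : ℤ,
      g ^ n • f i' j = f i' (j + (n * p : ℕ)) := by
  have hc := h.connected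
  intro i
  induction i with
  | zero =>
    refine ⟨1, one_pos, fun i' hi' j => ?_⟩
    obtain rfl : i' = 0 := by omega
    rw [pow_one, one_mul]
    exact hg j
  | succ i ih =>
    obtain ⟨n, hn, hi⟩ := ih
    have hpow : ∀ (r : ℕ) (i' : ℕ), i' ≤ i → ∀ j : ℤ,
        (g ^ n) ^ r • f i' j = f i' (j + (r : ℤ) * ((n * p : ℕ) : ℤ)) := fun r i' hi' j =>
      pow_translate (L := f i') (g := g ^ n) (p := n * p) (hi i' hi') r j
    let w : ℕ → V := fun r => (g ^ n) ^ r • f ((i : ℤ) + 1) (-((r : ℤ) * ((n * p : ℕ) : ℤ)))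
    have hw : ∀ r, w r ∈ {y | X.Adj (f i 0) y} := by
      intro r
      show X.Adj _ _
      rw [← SimpleGraph.dist_eq_one_iff_adj]
      have h1 : (g ^ n) ^ r • f i (-((r : ℤ) * ((n * p : ℕ) : ℤ))) = f i 0 := by
        rw [hpow r i le_rfl]
        congr 1
        ring
      rw [← h1]
      show X.dist _ ((g ^ n) ^ r • f ((i : ℤ) + 1) (-((r : ℤ) * ((n * p : ℕ) : ℤ)))) = 1
      rw [dist_smul hG hc]
      exact hf.dist_right _ _
    obtain ⟨r, s, hrs, heq⟩ :=
      (hG.locallyFinite (f i 0)).exists_lt_map_eq_of_forall_mem hw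
    have heq' : (g ^ n) ^ r • f ((i : ℤ) + 1) (-((r : ℤ) * ((n * p : ℕ) : ℤ))) =
      (g ^ n) ^ s • f ((i : ℤ) + 1) (-((s : ℤ) * ((n * p : ℕ) : ℤ))) := heq
    set m : ℕ := s - r with hm
    have hmr : s = r + m := by omega
    have hmpos : 0 < m := by omega
    have h1 : f ((i : ℤ) + 1) (-((r : ℤ) * ((n * p : ℕ) : ℤ))) =
        (g ^ n) ^ m • f ((i : ℤ) + 1) (-((s : ℤ) * ((n * p : ℕ) : ℤ))) := by
      rw [hmr, pow_add, mul_smul] at heq'
      rw [hmr]
      exact MulAction.injective _ heq'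
    -- compare the flats
    have hf' : IsFlat X (fun a b => (g ^ n) ^ m • f (a + 0) (b + -((m : ℤ) * ((n * p : ℕ) : ℤ)))) :=
      (hf.translate 0 (-((m : ℤ) * ((n * p : ℕ) : ℤ)))).smul hG hc _
    have hcol := flat_column_all h hf hf' (i := (i : ℤ))
      (y := -((r : ℤ) * ((n * p : ℕ) : ℤ))) (fun j => by
        rw [add_zero, hpow m i le_rfl]
        congr 1
        ring) (by
        rw [h1, add_zero]
        congr 2
        rw [hmr]
        push_cast
        ring)
    refine ⟨n * m, by positivity, fun i' hi' j => ?_⟩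
    rcases Nat.lt_or_ge i i' with hlt | hge
    · obtain rfl : i' = i + 1 := by omega
      have h2 := hcol (j + (m : ℤ) * ((n * p : ℕ) : ℤ))
      rw [add_zero] at h2
      rw [pow_mul]
      push_cast at h2 ⊢
      rw [show j + (n : ℤ) * m * p = j + m * (n * p) by ring, h2]
      congr 2
      ring
    · rw [pow_mul, hpow m i' hge]
      congr 1
      push_cast
      ring

lemma flat_halfspace (h : IsMedianGraph X) {f : ℤ → ℤ → V} (hf : IsFlat X f) (i : ℤ) :
    ∀ j : ℤ, halfspace X (f (i + 1) j) (f i j) = halfspace X (f (i + 1) 0) (f i 0) := by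
  have step : ∀ j : ℤ, halfspace X (f (i + 1) j) (f i j) =
      halfspace X (f (i + 1) (j + 1)) (f i (j + 1)) := by
    intro j
    apply halfspace_parallel h
    · rw [← SimpleGraph.dist_eq_one_iff_adj, SimpleGraph.dist_comm]
      exact hf.dist_right _ _
    · rw [← SimpleGraph.dist_eq_one_iff_adj]
      exact hf.dist_up _ _
    · rw [← SimpleGraph.dist_eq_one_iff_adj]
      exact hf.dist_right _ _
    · rw [← SimpleGraph.dist_eq_one_iff_adj, SimpleGraph.dist_comm]
      exact hf.dist_up _ _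
    · intro heq
      have := hf (i + 1) j i (j + 1)
      rw [heq] at this
      simp only [SimpleGraph.dist_self] at this
      omega
    · intro heq
      have := hf i j (i + 1) (j + 1)
      rw [heq] at this
      simp only [SimpleGraph.dist_self] at this
      omega
  intro j
  induction j using Int.induction_on with
  | zero => rfl
  | succ k hk => rw [← step, hk]
  | pred k hk =>
    have := step (-(k : ℤ) - 1)
    rw [this, show -(k : ℤ) - 1 + 1 = -k by ring, hk]

end Pool.Agent.Lib.MP_140312_al
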